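import Pool.Agent.H84.SM.Targets2
import Pool.Agent.H27.LV.Curve

/-!
# Row RIE of the board smc_modules: Riemann's inequality
-/

set_option autoImplicit false

namespace Pool.Agent.H25.SM

open SC Pool.Agent.H84.SM Pool.Agent.H27.LV

section

variable {k K : Type} [Field k] [Field K] [Algebra k K]

theorem pow_li {t : K} (ht : Transcendental k t) (m : ℕ) :
    LinearIndependent k (fun i : Fin m =>
      (⟨t, IntermediateField.mem_adjoin_simple_self k t⟩ : IntermediateField.adjoin k {t}) ^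
        (i : ℕ)) := by
  rw [Fintype.linearIndependent_iff]
  intro g hg j
  have hinj := transcendental_iff_injective.1 ht
  have h1 : Polynomial.aeval t (∑ i : Fin m, Polynomial.C (g i) * Polynomial.X ^ (i : ℕ)) =
      Polynomial.aeval t (0 : Polynomial k) := by
    rw [map_sum, map_zero]
    have h2 := congrArg (fun z : IntermediateField.adjoin k {t} => (z : K)) hg
    simp only [AddSubmonoidClass.coe_finsetSum, ZeroMemClass.coe_zero] at h2
    rw [← h2]
    refine Finset.sum_congr rfl fun i _ => ?_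
    rw [map_mul, Polynomial.aeval_C, map_pow, Polynomial.aeval_X, ← Algebra.smul_def]
    rfl
  have h3 := hinj h1
  have h4 := congrArg (fun P => Polynomial.coeff P (j : ℕ)) h3
  simp only [Polynomial.finsetSum_coeff, Polynomial.coeff_C_mul, Polynomial.coeff_X_pow,
    Polynomial.coeff_zero] at h4
  rw [Finset.sum_eq_single j] at h4
  · simpa using h4
  · intro i _ hij
    rw [if_neg, mul_zero]
    intro h5
    exact hij (Fin.ext h5.symm)
  · intro h5
    exact absurd (Finset.mem_univ j) h5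

theorem le_sum2 {n : ℕ} (s : Finset (DV k K)) (f : DV k K → Fin n → ℕ) (v : DV k K)
    (hv : v ∈ s) (j : Fin n) : f v j ≤ ∑ v ∈ s, ∑ j, f v j := by
  calc f v j ≤ ∑ j, f v j := Finset.single_le_sum (f := fun j => f v j)
        (fun _ _ => Nat.zero_le _) (Finset.mem_univ j)
    _ ≤ ∑ v ∈ s, ∑ j, f v j := Finset.single_le_sum (f := fun v => ∑ j, f v j)
        (fun _ _ => Nat.zero_le _) hv

end

theorem pf_RIE : T_RIE := by
  intro k K _ _ _ _ _ _ htr
  classical
  obtain ⟨t, ht⟩ : ∃ t : K, Transcendental k t :=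
    (trdeg_ne_zero_iff.1 (by rw [htr]; exact one_ne_zero)).transcendental
  have hfd := Pool.Agent.H36.SC.fin_of_transc htr ht
  obtain ⟨h5a, -, h5c⟩ := Pool.Agent.H76.KN.v5 k K t ht hfd
  obtain ⟨n, hn⟩ : ∃ n, n = Module.finrank (IntermediateField.adjoin k {t}) K := ⟨_, rfl⟩
  obtain ⟨a, ha⟩ : ∃ a : DV k K → ℕ, ∀ v, a v = (-(v.ord t)).toNat := ⟨_, fun _ => rfl⟩
  have hafin : {v | a v ≠ 0}.Finite := by
    refine h5a.subset fun v hv => ?_
    simp only [Set.mem_ofPred_eq] at hv ⊢
    rw [ha] at hv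
    by_contra h
    exact hv (by rw [Int.toNat_eq_zero]; omega)
  have hsum : ∑ᶠ v, a v = n := by
    have h1 : ((∑ᶠ v, a v : ℕ) : ℤ) = ∑ᶠ v, (a v : ℤ) :=
      map_finsum (Nat.castAddMonoidHom ℤ) hafin
    have h2 : ∀ v : DV k K, (a v : ℤ) = (v.deg : ℤ) * max 0 (- v.ord t) := by
      intro v
      rw [(rat k K htr v).1, ha]
      simp
      rw [max_comm]
    rw [finsum_congr h2, h5c, ← hn] at h1
    exact_mod_cast h1
  have hn0 : 0 < n := by
    rw [hn]
    exact Module.finrank_pos
  -- basis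
  obtain ⟨b⟩ : Nonempty (Module.Basis (Fin n) (IntermediateField.adjoin k {t}) K) := by
    rw [hn]
    exact ⟨Module.finBasis _ _⟩
  have hb0 : ∀ j, b j ≠ 0 := fun j => b.ne_zero j
  have hSfin : {v : DV k K | ∃ j, v.ord (b j) ≠ 0}.Finite := by
    have h1 : {v : DV k K | ∃ j, v.ord (b j) ≠ 0} = ⋃ j, {v : DV k K | v.ord (b j) ≠ 0} := by
      ext v
      simp
    rw [h1]
    exact Set.finite_iUnion fun j => (pfm k K htr (b j)).1
  have hc : ∀ v : DV k K, ∃ c : k, 0 ≤ v.ord t → ge v 1 (t - algebraMap k K c) := by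
    intro v
    by_cases h : 0 ≤ v.ord t
    · obtain ⟨c, hc⟩ := (rat k K htr v).2 t h
      exact ⟨c, fun _ => hc⟩
    · exact ⟨0, fun h' => absurd h' h⟩
  choose c hc using hc
  have hne : ∀ c : k, t - algebraMap k K c ≠ 0 := by
    intro c h
    apply ht
    rw [sub_eq_zero.1 h]
    exact isAlgebraic_algebraMap c
  obtain ⟨N, hN⟩ : ∃ N : ℕ, ∀ v ∈ hSfin.toFinset, ∀ j, (-(v.ord (b j))).toNat ≤ N :=
    ⟨_, fun v hv j => le_sum2 hSfin.toFinset (fun v j => (-(v.ord (b j))).toNat) v hv j⟩
  obtain ⟨p, hp⟩ : ∃ p : K, p = ∏ v ∈ hSfin.toFinset, (t - algebraMap k K (c v)) ^ N := ⟨_, rfl⟩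
  have hp0 : p ≠ 0 := by
    rw [hp]
    exact Finset.prod_ne_zero_iff.2 fun v _ => pow_ne_zero _ (hne _)
  have hpord : ∀ v : DV k K, v.ord p = ∑ w ∈ hSfin.toFinset, N * v.ord (t - algebraMap k K (c w)) := by
    intro v
    rw [hp, v.ord_prod _ _ fun w _ => pow_ne_zero _ (hne _)]
    refine Finset.sum_congr rfl fun w _ => ?_
    rw [v.ord_pow]
  have htnn : ∀ (v : DV k K) (c : k), 0 ≤ v.ord t → 0 ≤ v.ord (t - algebraMap k K c) := by
    intro v c h
    exact v.ord_sub_nonneg h (by rw [v.ord_base])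
  have hpnn : ∀ v : DV k K, 0 ≤ v.ord t → 0 ≤ v.ord p := by
    intro v h
    rw [hpord]
    exact Finset.sum_nonneg fun w _ => mul_nonneg (by positivity) (htnn v _ h)
  have hpN : ∀ v : DV k K, 0 ≤ v.ord t → v ∈ hSfin.toFinset → (N : ℤ) ≤ v.ord p := by
    intro v h hv
    rw [hpord]
    have h1 : (N : ℤ) ≤ N * v.ord (t - algebraMap k K (c v)) := by
      have h2 : 1 ≤ v.ord (t - algebraMap k K (c v)) := (hc v h).resolve_left (hne _)
      nlinarith [(Nat.cast_nonneg N : (0 : ℤ) ≤ N)]
    exact h1.trans (Finset.single_le_sum (f := fun w => (N : ℤ) * v.ord (t - algebraMap k K (c w)))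
      (fun w _ => mul_nonneg (by positivity) (htnn v _ h)) hv)
  have hy0 : ∀ j, p * b j ≠ 0 := fun j => mul_ne_zero hp0 (hb0 j)
  have hynn : ∀ (v : DV k K) j, 0 ≤ v.ord t → 0 ≤ v.ord (p * b j) := by
    intro v j h
    rw [v.ord_mul' hp0 (hb0 j)]
    by_cases hv : v ∈ hSfin.toFinset
    · have h1 := hpN v h hv
      have h2 := hN v hv j
      omega
    · have h1 := hpnn v h
      have h2 : v.ord (b j) = 0 := by
        by_contra h3
        exact hv (hSfin.mem_toFinset.2 ⟨j, h3⟩)
      omega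
  obtain ⟨c0, hc0⟩ : ∃ c0 : ℕ, ∀ v ∈ h5a.toFinset, ∀ j, (-(v.ord (p * b j))).toNat ≤ c0 :=
    ⟨_, fun v hv j => le_sum2 h5a.toFinset (fun v j => (-(v.ord (p * b j))).toNat) v hv j⟩
  have hli : LinearIndependent (IntermediateField.adjoin k {t}) (fun j => p * b j) := by
    have h1 := b.linearIndependent.map' (LinearMap.mulLeft (IntermediateField.adjoin k {t}) p) (by
      rw [LinearMap.ker_eq_bot]
      intro x y hxy
      exact mul_left_cancel₀ hp0 hxy)
    exact h1
  refine ⟨a, n * c0, hafin, by rw [hsum]; exact hn0, fun r => ?_⟩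
  have hf := linearIndependent_smul (pow_li ht (r + 1 - c0)) hli
  obtain ⟨f, hfe⟩ : ∃ f : Fin (r + 1 - c0) × Fin n → K, f = fun q : Fin (r + 1 - c0) × Fin n =>
      (⟨t, IntermediateField.mem_adjoin_simple_self k t⟩ : IntermediateField.adjoin k {t}) ^
        (q.1 : ℕ) • (p * b q.2) := ⟨_, rfl⟩
  rw [← hfe] at hf
  have hfv : ∀ q, f q = t ^ (q.1 : ℕ) * (p * b q.2) := by
    intro q
    rw [hfe]
    rfl
  refine ⟨Submodule.span k (Set.range f), FiniteDimensional.span_of_finite k (Set.finite_range f),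
    ?_, ?_⟩
  · intro x hx v
    induction hx using Submodule.span_induction with
    | zero => exact ge_zero v _
    | add x y _ _ h1 h2 => exact h1.add h2
    | smul c x _ h1 =>
        rw [Algebra.smul_def]
        have h2 := (ge_const v c).mul h1
        rwa [zero_add] at h2
    | mem x hx =>
        obtain ⟨q, rfl⟩ := hx
        right
        have ht0 : t ≠ 0 := by
          have := hne 0
          rwa [map_zero, sub_zero] at this
        rw [hfv, v.ord_mul' (pow_ne_zero _ ht0) (hy0 q.2), v.ord_pow]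
        by_cases h : 0 ≤ v.ord t
        · have h1 : a v = 0 := by
            rw [ha, Int.toNat_eq_zero]
            omega
          rw [h1]
          have h2 := hynn v q.2 h
          have h3 : 0 ≤ (((q.1 : ℕ)) : ℤ) * v.ord t := mul_nonneg (by positivity) h
          push_cast
          omega
        · push Not at h
          have h1 : (a v : ℤ) = -(v.ord t) := by
            rw [ha]
            omega
          have h2 := hc0 v (h5a.mem_toFinset.2 h) q.2
          have h3 : -(c0 : ℤ) ≤ v.ord (p * b q.2) := by omega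
          have h4 : ((q.1 : ℕ)) + c0 ≤ r := by
            have := q.1.2
            omega
          have h5 : (((q.1 : ℕ)) : ℤ) + c0 ≤ r := by exact_mod_cast h4
          have h6 : (1 : ℤ) ≤ a v := by rw [h1]; omega
          have h7 : v.ord t = -(a v : ℤ) := by rw [h1]; ring
          rw [h7]
          nlinarith [mul_le_mul_of_nonneg_right h5 (by omega : (0 : ℤ) ≤ a v),
            mul_le_mul_of_nonneg_left h6 (Nat.cast_nonneg c0 : (0 : ℤ) ≤ c0)]
  · rw [hsum, finrank_span_eq_card hf, Fintype.card_prod, Fintype.card_fin, Fintype.card_fin]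
    have h1 : r ≤ (r + 1 - c0) + c0 := by omega
    calc r * n ≤ ((r + 1 - c0) + c0) * n := Nat.mul_le_mul_right _ h1
      _ = (r + 1 - c0) * n + n * c0 := by ring

end Pool.Agent.H25.SM
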