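import Pool.Agent.H84.SM.Targets2

/-!
# Row IND of the board smc_modules: the indicial equation
-/

set_option autoImplicit false

namespace Pool.Agent.H25.SM

open MvPolynomial Pool.Agent.H84.SM
open Pool.Agent.H92.OD

section

variable {k : Type} [Field k]

theorem int_aeval {n : ℕ} (p : Fin n → HS k) (hp : ∀ i, geO 0 (p i))
    (P : MvPolynomial (Fin n) k) : geO 0 (aeval p P) := by
  induction P using MvPolynomial.induction_on with
  | C c =>
      rw [aeval_C, algebraMap_HS]
      exact geO_sg 0 _
  | add P Q h1 h2 =>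
      rw [map_add]
      exact geO_add h1 h2
  | mul_X P j h =>
      rw [map_mul, aeval_X]
      have h1 := geO_mul h (hp j)
      rwa [add_zero] at h1

theorem diff_aeval {n : ℕ} (p q : Fin n → HS k) (hp : ∀ i, geO 0 (p i))
    (hq : ∀ i, geO 0 (q i)) (ρ : ℚ) (hpq : ∀ i, geO ρ (p i - q i))
    (P : MvPolynomial (Fin n) k) : geO ρ (aeval p P - aeval q P) := by
  induction P using MvPolynomial.induction_on with
  | C c =>
      rw [aeval_C, aeval_C, sub_self]
      exact geO_zero ρ
  | add P Q h1 h2 =>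
      have e : aeval p (P + Q) - aeval q (P + Q) =
          (aeval p P - aeval q P) + (aeval p Q - aeval q Q) := by
        rw [map_add, map_add]; ring
      rw [e]
      exact geO_add h1 h2
  | mul_X P j h =>
      have e : aeval p (P * X j) - aeval q (P * X j) =
          (aeval p P - aeval q P) * p j + aeval q P * (p j - q j) := by
        rw [map_mul, map_mul, aeval_X, aeval_X]; ring
      rw [e]
      have h1 := geO_mul h (hp j)
      have h2 := geO_mul (int_aeval q hq P) (hpq j)
      rw [add_zero] at h1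
      rw [zero_add] at h2
      exact geO_add h1 h2

theorem taylor {n : ℕ} (p q c : Fin n → HS k) (hp : ∀ i, geO 0 (p i))
    (hq : ∀ i, geO 0 (q i)) (hc : ∀ i, geO 0 (c i)) (ρ : ℚ) (hpc : ∀ i, geO ρ (p i - c i))
    (hqc : ∀ i, geO ρ (q i - c i)) (P : MvPolynomial (Fin n) k) :
    ∃ R : Fin n → HS k, aeval p P - aeval q P = ∑ i, (p i - q i) * R i ∧
      ∀ i, geO ρ (R i - aeval c (pderiv i P)) := by
  induction P using MvPolynomial.induction_on with
  | C a =>
      refine ⟨fun _ => 0, ?_, fun i => ?_⟩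
      · rw [aeval_C, aeval_C, sub_self]
        simp
      · rw [pderiv_C, map_zero, sub_self]
        exact geO_zero ρ
  | add P Q h1 h2 =>
      obtain ⟨R, hR, hR'⟩ := h1
      obtain ⟨S, hS, hS'⟩ := h2
      refine ⟨fun i => R i + S i, ?_, fun i => ?_⟩
      · have e : aeval p (P + Q) - aeval q (P + Q) =
          (aeval p P - aeval q P) + (aeval p Q - aeval q Q) := by
          rw [map_add, map_add]; ring
        rw [e, hR, hS, ← Finset.sum_add_distrib]
        refine Finset.sum_congr rfl fun i _ => ?_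
        ring
      · have e : R i + S i - aeval c (pderiv i (P + Q)) =
          (R i - aeval c (pderiv i P)) + (S i - aeval c (pderiv i Q)) := by
          rw [map_add, map_add]; ring
        rw [e]
        exact geO_add (hR' i) (hS' i)
  | mul_X P j h =>
      obtain ⟨R, hR, hR'⟩ := h
      refine ⟨fun i => R i * p j + (if i = j then aeval q P else 0), ?_, fun i => ?_⟩
      · have e : aeval p (P * X j) - aeval q (P * X j) =
          (aeval p P - aeval q P) * p j + (p j - q j) * aeval q P := by
          rw [map_mul, map_mul, aeval_X, aeval_X]; ring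
        rw [e, hR]
        have e2 : ∑ i, (p i - q i) * (R i * p j + (if i = j then aeval q P else 0)) =
            ∑ i, ((p i - q i) * R i) * p j + ∑ i, (p i - q i) * (if i = j then aeval q P else 0) := by
          rw [← Finset.sum_add_distrib]
          refine Finset.sum_congr rfl fun i _ => ?_
          ring
        rw [e2, ← Finset.sum_mul]
        congr 1
        rw [Finset.sum_eq_single j]
        · rw [if_pos rfl]
        · intro i _ hij
          rw [if_neg hij, mul_zero]
        · intro h
          exact absurd (Finset.mem_univ j) h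
      · have hder : aeval c (pderiv i (P * X j)) =
            aeval c (pderiv i P) * c j + (if i = j then aeval c P else 0) := by
          rw [Derivation.leibniz, map_add, smul_eq_mul, smul_eq_mul, map_mul, map_mul, aeval_X,
            pderiv_X]
          by_cases hij : i = j
          · subst hij
            simp
            ring
          · rw [if_neg hij, Pi.single_eq_of_ne (Ne.symm hij)]
            simp
            ring
        have e : R i * p j + (if i = j then aeval q P else 0) - aeval c (pderiv i (P * X j)) =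
            (R i - aeval c (pderiv i P)) * p j + aeval c (pderiv i P) * (p j - c j) +
              (if i = j then aeval q P - aeval c P else 0) := by
          rw [hder]
          split_ifs <;> ring
        rw [e]
        have h1 := geO_mul (hR' i) (hp j)
        have h2 := geO_mul (int_aeval c hc (pderiv i P)) (hpc j)
        rw [add_zero] at h1
        rw [zero_add] at h2
        refine geO_add (geO_add h1 h2) ?_
        split_ifs
        · exact diff_aeval q c hq hc ρ hqc P
        · exact geO_zero ρ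

end

section

variable {k : Type} [Field k] [CharZero k]

theorem y1_add (x y : HS k) : y1 (x + y) = y1 x + y1 y := by
  unfold y1
  rw [DF_add, mul_add]

theorem y2_add (x y : HS k) : y2 (x + y) = y2 x + y2 y := by
  unfold y2
  rw [DF_add, DF_add]
  ring

theorem cf_y1 (y : HS k) (s : ℚ) : cf (y1 y) s = ((s + 1 : ℚ) : k) * cf y (s + 1) := by
  unfold y1
  rw [cf_sg_mul, cf_DF, one_mul, sub_neg_eq_add, Rat.smul_def]

theorem cf_y2 (y : HS k) (s : ℚ) :
    cf (y2 y) s = ((s + 2 : ℚ) : k) * ((s + 1 : ℚ) : k) * cf y (s + 2) := by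
  unfold y2
  rw [cf_sg_mul, cf_sub, cf_DF, cf_DF, one_mul, sub_neg_eq_add, Rat.smul_def, Rat.smul_def]
  push_cast
  ring

theorem geO_y1 {r : ℚ} {y : HS k} (h : geO r y) : geO (r - 1) (y1 y) := fun s hs => by
  rw [cf_y1, h (s + 1) (by linarith), mul_zero]

theorem geO_y2 {r : ℚ} {y : HS k} (h : geO r y) : geO (r - 2) (y2 y) := fun s hs => by
  rw [cf_y2, h (s + 2) (by linarith), mul_zero]

theorem geO_y2' {y : HS k} (h : geO 1 y) (hl : Lat 1 y) : geO 0 (y2 y) := fun s hs => by
  rw [cf_y2]
  by_cases h0 : cf y (s + 2) = 0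
  · rw [h0, mul_zero]
  · obtain ⟨m, hm⟩ := hl _ h0
    have h1 : ¬ s + 2 < 1 := fun h2 => h0 (h _ h2)
    have h2 : s + 2 = m := by
      rw [← hm]; simp
    have h3 : (1 : ℚ) ≤ m := by rw [← h2]; linarith
    have h4 : (m : ℚ) < 2 := by rw [← h2]; linarith
    have h5 : m = 1 := by
      have h6 : (1 : ℤ) ≤ m := by exact_mod_cast h3
      have h7 : m < (2 : ℤ) := by exact_mod_cast h4
      omega
    have h6 : s + 1 = 0 := by
      rw [h5] at h2
      push_cast at h2
      linarith
    rw [h6]
    simp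

theorem geO_uu : geO 0 (uu k) := geO_mono (geO_sg 1 1) (by norm_num)

/-- the main congruence -/
theorem mainc (A : MvPolynomial (Fin 2) k) (b : MvPolynomial (Fin 3) k) (φ : HS k) (a : ℕ)
    (h : Bas A b φ a) (U V : HS k) (r : ℚ) (hr1 : 1 ≤ r) (hra : (a : ℚ) < r) (hU : geO r U)
    (hV : geO r V) (sU : Sol A b (φ + U)) (sV : Sol A b (φ + V)) (ν : ℚ)
    (hν : geO ν (V - U)) :
    geO (ν + r - 2) (aeval ![uu k, φ] A * y2 (V - U) +
      (V - U) * (aeval ![uu k, φ] (pderiv 1 A) * y2 φ +
        aeval ![uu k, φ, y1 φ] (pderiv 1 b)) +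
      y1 (V - U) * aeval ![uu k, φ, y1 φ] (pderiv 2 b)) := by
  have hφ0 : geO 0 φ := geO_mono h.pos (by norm_num)
  have hU0 : geO 0 U := geO_mono hU (by linarith)
  have hV0 : geO 0 V := geO_mono hV (by linarith)
  have hy1φ : geO 0 (y1 φ) := by
    have := geO_y1 h.pos
    norm_num at this
    exact this
  have hy1U : geO (r - 1) (y1 U) := geO_y1 hU
  have hy1V : geO (r - 1) (y1 V) := geO_y1 hV
  have hy1U0 : geO 0 (y1 U) := geO_mono hy1U (by linarith)
  have hy1V0 : geO 0 (y1 V) := geO_mono hy1V (by linarith)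
  have hy2φ : geO 0 (y2 φ) := geO_y2' h.pos h.lat
  have hy2U : geO (r - 2) (y2 U) := geO_y2 hU
  -- Taylor for `A`
  obtain ⟨RA, hRA, hRA'⟩ := taylor ![uu k, φ + V] ![uu k, φ + U] ![uu k, φ]
    (by intro i; fin_cases i; exacts [geO_uu, geO_add hφ0 hV0])
    (by intro i; fin_cases i; exacts [geO_uu, geO_add hφ0 hU0])
    (by intro i; fin_cases i; exacts [geO_uu, hφ0]) r
    (by
      intro i
      fin_cases i
      · show geO r (uu k - uu k)
        rw [sub_self]
        exact geO_zero r
      · show geO r (φ + V - φ)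
        rw [add_sub_cancel_left]
        exact hV)
    (by
      intro i
      fin_cases i
      · show geO r (uu k - uu k)
        rw [sub_self]
        exact geO_zero r
      · show geO r (φ + U - φ)
        rw [add_sub_cancel_left]
        exact hU) A
  have hAV : geO r (aeval ![uu k, φ + V] A - aeval ![uu k, φ] A) :=
    diff_aeval ![uu k, φ + V] ![uu k, φ]
    (by intro i; fin_cases i; exacts [geO_uu, geO_add hφ0 hV0])
    (by intro i; fin_cases i; exacts [geO_uu, hφ0]) r
    (by
      intro i
      fin_cases i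
      · show geO r (uu k - uu k)
        rw [sub_self]
        exact geO_zero r
      · show geO r (φ + V - φ)
        rw [add_sub_cancel_left]
        exact hV) A
  have hAY : geO 0 (aeval ![uu k, φ] (pderiv 1 A)) :=
    int_aeval _ (by intro i; fin_cases i; exacts [geO_uu, hφ0]) _
  obtain ⟨RB, hRB, hRB'⟩ := taylor ![uu k, φ + V, y1 (φ + V)] ![uu k, φ + U, y1 (φ + U)]
    ![uu k, φ, y1 φ]
    (by
      intro i
      fin_cases i
      · exact geO_uu
      · exact geO_add hφ0 hV0
      · show geO 0 (y1 (φ + V))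
        rw [y1_add]
        exact geO_add hy1φ hy1V0)
    (by
      intro i
      fin_cases i
      · exact geO_uu
      · exact geO_add hφ0 hU0
      · show geO 0 (y1 (φ + U))
        rw [y1_add]
        exact geO_add hy1φ hy1U0)
    (by intro i; fin_cases i; exacts [geO_uu, hφ0, hy1φ]) (r - 1)
    (by
      intro i
      fin_cases i
      · show geO (r - 1) (uu k - uu k)
        rw [sub_self]
        exact geO_zero _
      · show geO (r - 1) (φ + V - φ)
        rw [add_sub_cancel_left]
        exact geO_mono hV (by linarith)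
      · show geO (r - 1) (y1 (φ + V) - y1 φ)
        rw [y1_add, add_sub_cancel_left]
        exact hy1V)
    (by
      intro i
      fin_cases i
      · show geO (r - 1) (uu k - uu k)
        rw [sub_self]
        exact geO_zero _
      · show geO (r - 1) (φ + U - φ)
        rw [add_sub_cancel_left]
        exact geO_mono hU (by linarith)
      · show geO (r - 1) (y1 (φ + U) - y1 φ)
        rw [y1_add, add_sub_cancel_left]
        exact hy1U) b
  rw [Fin.sum_univ_two] at hRA
  rw [Fin.sum_univ_three] at hRB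
  have eA : aeval ![uu k, φ + V] A - aeval ![uu k, φ + U] A = (V - U) * RA 1 := by
    rw [hRA]
    show (uu k - uu k) * RA 0 + (φ + V - (φ + U)) * RA 1 = _
    ring
  have eB : aeval ![uu k, φ + V, y1 (φ + V)] b - aeval ![uu k, φ + U, y1 (φ + U)] b =
      (V - U) * RB 1 + y1 (V - U) * RB 2 := by
    rw [hRB]
    show (uu k - uu k) * RB 0 + (φ + V - (φ + U)) * RB 1 +
      (y1 (φ + V) - y1 (φ + U)) * RB 2 = _
    have e1 : y1 V = y1 (V - U) + y1 U := by rw [← y1_add, sub_add_cancel]
    rw [y1_add, y1_add, e1]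
    ring
  have e2 : y2 V = y2 (V - U) + y2 U := by rw [← y2_add, sub_add_cancel]
  unfold Sol at sU sV
  have key : aeval ![uu k, φ] A * y2 (V - U) +
      (V - U) * (aeval ![uu k, φ] (pderiv 1 A) * y2 φ +
        aeval ![uu k, φ, y1 φ] (pderiv 1 b)) +
      y1 (V - U) * aeval ![uu k, φ, y1 φ] (pderiv 2 b) =
      -((aeval ![uu k, φ + V] A - aeval ![uu k, φ] A) * y2 (V - U) +
        (V - U) * (aeval ![uu k, φ] (pderiv 1 A) * y2 U) +
        (V - U) * ((RA 1 - aeval ![uu k, φ] (pderiv 1 A)) * (y2 φ + y2 U)) +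
        (V - U) * (RB 1 - aeval ![uu k, φ, y1 φ] (pderiv 1 b)) +
        y1 (V - U) * (RB 2 - aeval ![uu k, φ, y1 φ] (pderiv 2 b))) := by
    have h0 : aeval ![uu k, φ + V] A * y2 (V - U) + (V - U) * RA 1 * (y2 φ + y2 U) +
        ((V - U) * RB 1 + y1 (V - U) * RB 2) = 0 := by
      rw [← eA, ← eB]
      rw [y2_add] at sU sV
      rw [e2] at sV
      linear_combination sV - sU
    linear_combination h0
  rw [key]
  have hd : geO ν (V - U) := hν
  have hd1 : geO (ν - 1) (y1 (V - U)) := geO_y1 hd
  have hd2 : geO (ν - 2) (y2 (V - U)) := geO_y2 hd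
  have g1 : geO (ν + r - 2) ((aeval ![uu k, φ + V] A - aeval ![uu k, φ] A) * y2 (V - U)) :=
    geO_mono (geO_mul hAV hd2) (by linarith)
  have g2 : geO (ν + r - 2) ((V - U) * (aeval ![uu k, φ] (pderiv 1 A) * y2 U)) :=
    geO_mono (geO_mul hd (geO_mul hAY hy2U)) (by linarith)
  have g3 : geO (ν + r - 2)
      ((V - U) * ((RA 1 - aeval ![uu k, φ] (pderiv 1 A)) * (y2 φ + y2 U))) := by
    have h1 : geO (-1) (y2 φ + y2 U) :=
      geO_add (geO_mono hy2φ (by norm_num)) (geO_mono hy2U (by linarith))
    exact geO_mono (geO_mul hd (geO_mul (hRA' 1) h1)) (by linarith)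
  have g4 : geO (ν + r - 2) ((V - U) * (RB 1 - aeval ![uu k, φ, y1 φ] (pderiv 1 b))) :=
    geO_mono (geO_mul hd (hRB' 1)) (by linarith)
  have g5 : geO (ν + r - 2) (y1 (V - U) * (RB 2 - aeval ![uu k, φ, y1 φ] (pderiv 2 b))) :=
    geO_mono (geO_mul hd1 (hRB' 2)) (by linarith)
  exact geO_neg (geO_add (geO_add (geO_add (geO_add g1 g2) g3) g4) g5)

/-- two series and a bound -/
theorem cases2 (α β : HS k) (a : ℚ) :
    (∃ j < a, geO j α ∧ geO (j + 1) β ∧ (cf α j ≠ 0 ∨ cf β (j + 1) ≠ 0)) ∨
      (geO a α ∧ geO (a + 1) β) := by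
  by_cases hα : geO a α
  · by_cases hβ : geO (a + 1) β
    · exact Or.inr ⟨hα, hβ⟩
    · left
      have hβ0 : β ≠ 0 := by
        rintro rfl
        exact hβ (geO_zero _)
      obtain ⟨s, hs⟩ := exists_IsO hβ0
      have hs1 : s < a + 1 := by
        by_contra h
        exact hβ (geO_mono hs.2 (not_lt.1 h))
      refine ⟨s - 1, by linarith, geO_mono hα (by linarith), ?_, Or.inr ?_⟩
      · rw [sub_add_cancel]; exact hs.2
      · rw [sub_add_cancel]; exact hs.1
  · left
    have hα0 : α ≠ 0 := by
      rintro rfl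
      exact hα (geO_zero _)
    obtain ⟨s, hs⟩ := exists_IsO hα0
    have hs1 : s < a := by
      by_contra h
      exact hα (geO_mono hs.2 (not_lt.1 h))
    by_cases hβ : geO (s + 1) β
    · exact ⟨s, hs1, hs.2, hβ, Or.inl hs.1⟩
    · have hβ0 : β ≠ 0 := by
        rintro rfl
        exact hβ (geO_zero _)
      obtain ⟨s', hs'⟩ := exists_IsO hβ0
      have hs1' : s' < s + 1 := by
        by_contra h
        exact hβ (geO_mono hs'.2 (not_lt.1 h))
      refine ⟨s' - 1, by linarith, geO_mono hs.2 (by linarith), ?_, Or.inr ?_⟩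
      · rw [sub_add_cancel]; exact hs'.2
      · rw [sub_add_cancel]; exact hs'.1

end

theorem pf_IND : T_IND := by
  intro k _ _ A b φ a h
  obtain ⟨α, hα⟩ : ∃ α : HS k, α = aeval ![uu k, φ] (pderiv 1 A) * y2 φ +
        aeval ![uu k, φ, y1 φ] (pderiv 1 b) := ⟨_, rfl⟩
  obtain ⟨β, hβ⟩ : ∃ β : HS k, β = aeval ![uu k, φ, y1 φ] (pderiv 2 b) := ⟨_, rfl⟩
  have hφ0 : geO 0 φ := geO_mono h.pos (by norm_num)
  have hy1φ : geO 0 (y1 φ) := by
    have := geO_y1 h.pos
    norm_num at this
    exact this
  have hy2φ : geO 0 (y2 φ) := geO_y2' h.pos h.lat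
  have hα0 : geO 0 α := by
    rw [hα]
    have h1 : geO 0 (aeval ![uu k, φ] (pderiv 1 A)) :=
      int_aeval _ (by intro i; fin_cases i; exacts [geO_uu, hφ0]) _
    have h2 : geO 0 (aeval ![uu k, φ, y1 φ] (pderiv 1 b)) :=
      int_aeval _ (by intro i; fin_cases i; exacts [geO_uu, hφ0, hy1φ]) _
    have h3 := geO_mul h1 hy2φ
    rw [zero_add] at h3
    exact geO_add h3 h2
  have hβ0 : geO 0 β := by
    rw [hβ]
    exact int_aeval _ (by intro i; fin_cases i; exacts [geO_uu, hφ0, hy1φ]) _
  -- the common part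
  have main : ∀ U V : HS k, Near a U → Near a V → Sol A b (φ + U) → Sol A b (φ + V) →
      ∀ ν : ℚ, IsO (V - U) ν → ∃ r : ℚ, (a : ℚ) < r ∧
      geO (ν + r - 2) (aeval ![uu k, φ] A * y2 (V - U) + (V - U) * α + y1 (V - U) * β) := by
    intro U V hU hV sU sV ν hν
    obtain ⟨hU1, r1, hr1, hU2⟩ := hU
    obtain ⟨hV1, r2, hr2, hV2⟩ := hV
    have hr : (a : ℚ) < min r1 r2 := lt_min hr1 hr2
    have hUr : geO (max 1 (min r1 r2)) U := by
      rcases le_total (1 : ℚ) (min r1 r2) with h1 | h1
      · rw [max_eq_right h1]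
        exact geO_mono hU2 (min_le_left _ _)
      · rw [max_eq_left h1]
        exact hU1
    have hVr : geO (max 1 (min r1 r2)) V := by
      rcases le_total (1 : ℚ) (min r1 r2) with h1 | h1
      · rw [max_eq_right h1]
        exact geO_mono hV2 (min_le_right _ _)
      · rw [max_eq_left h1]
        exact hV1
    refine ⟨max 1 (min r1 r2), lt_of_lt_of_le hr (le_max_right _ _), ?_⟩
    rw [hα, hβ]
    exact mainc A b φ a h U V _ (le_max_left _ _) (lt_of_lt_of_le hr (le_max_right _ _)) hUr hVr
      sU sV ν hν.2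
  have hA0 := h.ord.1
  rcases cases2 α β ((a : ℚ) - 2) with ⟨j, hj, hjα, hjβ, hne⟩ | ⟨hα2, hβ2⟩
  · refine ⟨Polynomial.C (cf α j) + Polynomial.C (cf β (j + 1)) * Polynomial.X, ?_, ?_, ?_⟩
    · intro h0
      have c0 := congrArg (fun P => Polynomial.coeff P 0) h0
      have c1 := congrArg (fun P => Polynomial.coeff P 1) h0
      simp at c0 c1
      rcases hne with h1 | h1
      · exact h1 c0
      · exact h1 c1
    · intro ha
      exfalso
      rw [ha] at hj
      push_cast at hj
      rcases hne with h1 | h1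
      · exact h1 (hα0 j (by linarith))
      · exact h1 (hβ0 (j + 1) (by linarith))
    · intro U V hU hV sU sV ν hν
      obtain ⟨r, hr, hF⟩ := main U V hU hV sU sV ν hν
      have h1 := hF (ν + j) (by linarith)
      rw [cf_add, cf_add] at h1
      have g1 : cf (aeval ![uu k, φ] A * y2 (V - U)) (ν + j) = 0 :=
        geO_mul h.ord.2 (geO_y2 hν.2) _ (by linarith)
      have g2 : cf ((V - U) * α) (ν + j) = cf (V - U) ν * cf α j :=
        (cf_mul_low hν.2 hjα).2
      have g3 : cf (y1 (V - U) * β) (ν + j) = (ν : k) * cf (V - U) ν * cf β (j + 1) := by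
        have g4 := (cf_mul_low (geO_y1 hν.2) hjβ).2
        have e : ν - 1 + (j + 1) = ν + j := by ring
        rw [e, cf_y1, sub_add_cancel] at g4
        exact g4
      rw [g1, g2, g3] at h1
      have g5 : cf (V - U) ν * (cf α j + cf β (j + 1) * (ν : k)) = 0 := by
        linear_combination h1
      rcases mul_eq_zero.1 g5 with g6 | g6
      · exact absurd g6 hν.1
      · simp only [Polynomial.eval_add, Polynomial.eval_C, Polynomial.eval_mul, Polynomial.eval_X]
        exact g6
  · obtain ⟨A0, hA0e⟩ : ∃ A0 : k, A0 = cf (aeval ![uu k, φ] A) (a : ℚ) := ⟨_, rfl⟩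
    rw [← hA0e] at hA0
    obtain ⟨c0, hc0⟩ : ∃ c0 : k, c0 = cf α ((a : ℚ) - 2) := ⟨_, rfl⟩
    obtain ⟨c1, hc1⟩ : ∃ c1 : k, c1 = cf β ((a : ℚ) - 2 + 1) := ⟨_, rfl⟩
    refine ⟨Polynomial.X ^ 2 - Polynomial.X + Polynomial.C (c0 / A0) +
      Polynomial.C (c1 / A0) * Polynomial.X, ?_, ?_, ?_⟩
    · intro h0
      have h2 := congrArg (fun P => Polynomial.coeff P 2) h0
      simp [Polynomial.coeff_X, Polynomial.coeff_C] at h2
    · intro ha
      have h1 : c0 = 0 := by
        rw [hc0, ha]
        exact hα0 _ (by norm_num)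
      have h2 : c1 = 0 := by
        rw [hc1, ha]
        exact hβ0 _ (by norm_num)
      rw [h1, h2]
      simp
    · intro U V hU hV sU sV ν hν
      obtain ⟨r, hr, hF⟩ := main U V hU hV sU sV ν hν
      have h1 := hF (ν + (a - 2)) (by linarith)
      rw [cf_add, cf_add] at h1
      have g1 : cf (aeval ![uu k, φ] A * y2 (V - U)) (ν + (a - 2)) =
          A0 * ((ν : k) * ((ν : k) - 1) * cf (V - U) ν) := by
        have g4 := (cf_mul_low h.ord.2 (geO_y2 hν.2)).2
        have e : (a : ℚ) + (ν - 2) = ν + (a - 2) := by ring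
        rw [e, cf_y2, sub_add_cancel, ← hA0e] at g4
        rw [g4]
        push_cast
        ring
      have g2 : cf ((V - U) * α) (ν + (a - 2)) = cf (V - U) ν * c0 := by
        rw [hc0]
        exact (cf_mul_low hν.2 hα2).2
      have g3 : cf (y1 (V - U) * β) (ν + (a - 2)) = (ν : k) * cf (V - U) ν * c1 := by
        have g4 := (cf_mul_low (geO_y1 hν.2) hβ2).2
        have e : ν - 1 + ((a : ℚ) - 2 + 1) = ν + (a - 2) := by ring
        rw [e, cf_y1, sub_add_cancel, ← hc1] at g4
        exact g4
      rw [g1, g2, g3] at h1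
      have g5 : cf (V - U) ν * (A0 * ((ν : k) ^ 2 - ν) + c0 + c1 * (ν : k)) = 0 := by
        linear_combination h1
      rcases mul_eq_zero.1 g5 with g6 | g6
      · exact absurd g6 hν.1
      · simp only [Polynomial.eval_add, Polynomial.eval_C, Polynomial.eval_mul, Polynomial.eval_X,
          Polynomial.eval_sub, Polynomial.eval_pow]
        have g7 : A0 * (ν ^ 2 - ν + c0 / A0 + c1 / A0 * (ν : k)) = 0 := by
          rw [← g6]
          field_simp
        rcases mul_eq_zero.1 g7 with g8 | g8
        · exact absurd g8 hA0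
        · exact g8

end Pool.Agent.H25.SM
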