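import Pool.Agent.H20.SM.TW
import Pool.Agent.H19.SM.Bz

/-!
# The mollified second moment with shifts, the mollifier moved to the right (row Bw)

The model is `Pool/Agent/H19/SM/Bz.lean`.
-/

set_option autoImplicit false

open NumberField NumberField.InfinitePlace Complex Filter Topology MeasureTheory

namespace Pool.Agent.H25.SM

open Pool.Agent.H28.RC Pool.Agent.H25.HK Pool.Agent.H37.CV
open Pool.Agent.H65.CRZ Pool.Agent.H65.CRG Pool.Agent.H20.SM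

/-- the conjugate of the mollifier -/
theorem conj_polw {K : Type} [Field K] [NumberField K] (M γ u : ℝ) (ψ : Ideal (𝓞 K) → ℂ) :
    (starRingEnd ℂ) (pol M (cg K M γ u) ψ) =
      pol M (cg K M γ (-u)) (fun I => (starRingEnd ℂ) (ψ I)) := by
  unfold pol
  rw [map_sum]
  refine Finset.sum_congr rfl fun S _ => ?_
  have h1 : 0 < nS np S := Pool.Agent.H96.CV.nS_pos S
  rw [map_mul]
  congr 1
  unfold cg
  rw [map_mul, Complex.conj_ofReal]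
  congr 1
  have h2 : ((nS np S : ℝ) : ℂ).arg ≠ Real.pi := by
    rw [Complex.arg_ofReal_of_nonneg h1.le]
    exact Real.pi_pos.ne
  have h3 := Complex.cpow_conj ((nS np S : ℝ) : ℂ) (-(1 / 2 + γ + (u : ℂ) * I)) h2
  rw [Complex.conj_ofReal] at h3
  rw [← h3]
  congr 1
  rw [map_neg, map_add, map_add, map_mul, Complex.conj_ofReal, Complex.conj_ofReal,
    Complex.conj_I, map_div₀, map_one]
  have h4 : (starRingEnd ℂ) 2 = 2 := Complex.conj_ofNat 2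
  rw [h4]
  push_cast
  ring

theorem pf_Bw (hSE : T_SEw) (hDI : T_DIw) (hBM : T_BMw) (hCQ : T_CQz) (hIE : T_IEq) :
    T_Bw := by
  have hAF : Pool.Agent.H65.CRG.T_AF := d_AF
  have hG3 : Pool.Agent.H65.CRG.T_G3 := d_G3
  intro F _ _ _ _
  obtain ⟨A₀, hSE⟩ := hSE F
  refine ⟨A₀, fun A ε₁ c C₀ hA hε hε' hc hC₀ => ?_⟩
  obtain ⟨E, hE⟩ := a_ZK F
  have hE' : IsE F E := hE
  obtain ⟨hr, hfr, cK, hcK, hcA⟩ := hCQ F
  set r : ℕ := nrComplexPlaces F with hrdef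
  have hr0 : (0 : ℝ) < r := by exact_mod_cast hr
  have h2ε : 0 < 1 - 2 * ε₁ := by linarith
  set a : ℝ := r * (1 - 2 * ε₁) with ha
  have ha0 : 0 < a := mul_pos hr0 h2ε
  obtain ⟨B₁, hB₁, hSE⟩ := hSE A ε₁ c C₀ hA hε hε' hc hC₀
  obtain ⟨B₂, hB₂, hDI⟩ := hDI F E ε₁ (2 / (1 - 2 * ε₁)) (a * c) (a * C₀) hE' hε
    (by positivity) (by positivity) (by positivity)
  obtain ⟨B₃, hB₃, hBM⟩ := hBM F E (2 / (1 - 2 * ε₁)) (a * c) (a * C₀) hE'
    (by positivity) (by positivity) (by positivity)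
  obtain ⟨CX, BX, hCX, hBX, q₁, hX⟩ := Pool.Agent.H40.CRG.norm_Xn_le hG3 r cK C₀ hcK hC₀
  refine ⟨B₁ + BX + B₂ + B₃, by positivity, fun η hη => ?_⟩
  set η₁ : ℝ := η / (3 * (1 + CX)) with hη₁
  have hη₁0 : 0 < η₁ := by positivity
  obtain ⟨x₂, hx₂⟩ := hSE η₁ hη₁0
  obtain ⟨M₃, hM₃⟩ := hDI (η / 3) (by positivity)
  obtain ⟨M₄, hM₄⟩ := hBM (η / 3) (by positivity)
  obtain ⟨q₅, hq₅⟩ := Pool.Agent.H91.CRZ.log_large C₀ (1 / 4) (by norm_num)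
  obtain ⟨q₆, hq₆⟩ := Pool.Agent.H19.SM.Bz_par r hr cK ε₁ hcK hε hε' (max M₃ M₄)
  refine ⟨max (max (Real.exp 1) x₂) (((max q₁ (max q₅ q₆) : ℕ) : ℝ) ^ 2),
    fun x q hx hSp α β γ u hα hβ hαβ hγ hγ' => ?_⟩
  have hxe : Real.exp 1 ≤ x := (le_max_left _ _).trans ((le_max_left _ _).trans hx)
  have hxb : x₂ ≤ x := (le_max_right _ _).trans ((le_max_left _ _).trans hx)
  obtain ⟨hqx, hq2⟩ := Pool.Agent.H19.SM.Bz_large F A x q hxe hSp
  have hQq : max q₁ (max q₅ q₆) ≤ q := by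
    have h1 : ((max q₁ (max q₅ q₆) : ℕ) : ℝ) ≤ Real.sqrt x := by
      refine Real.le_sqrt_of_sq_le ?_
      exact (le_max_right _ _).trans hx
    exact_mod_cast h1.trans hqx
  have hqa : q₁ ≤ q := (le_max_left _ _).trans hQq
  have hqe : q₅ ≤ q := (le_max_left _ _).trans ((le_max_right _ _).trans hQq)
  have hqf : q₆ ≤ q := (le_max_right _ _).trans ((le_max_right _ _).trans hQq)
  obtain ⟨hl1, hl2⟩ := hq₅ q hqe
  have hl0 : 0 < Real.log q := by linarith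
  obtain ⟨hcA1, hcA2⟩ := hcA q (by omega)
  have hMdef : Mo F ε₁ q = ((q : ℝ) ^ (2 * r)) ^ (1 / 2 - ε₁) := by
    unfold Mo
    rw [hcA2, hfr]
  obtain ⟨m1, m2, m3, m4, m5⟩ := hq₆ q hqf (Mo F ε₁ q) hMdef
  have hX' := hX q hqa α β u hα hβ
  rw [← hcA1] at hX' m3 m4 m5
  have hlogM : Real.log (Mo F ε₁ q) = a * Real.log q := by rw [m2, ha]
  have hdiv : ∀ t : ℝ, a * t / Real.log (Mo F ε₁ q) = t / Real.log q := fun t => by
    rw [hlogM, mul_div_mul_left _ _ ha0.ne']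
  have hDI' := hM₃ (Mo F ε₁ q) (cB F (qi F q)) ((le_max_left _ _).trans m1) m3 m4 α β γ u
    (by rw [hdiv]; exact hα) (by rw [hdiv]; exact hβ) (by rw [hdiv]; exact hαβ) hγ
    (by rw [hdiv]; exact hγ')
  have hBM' := hM₄ (Mo F ε₁ q) (cB F (qi F q)) ((le_max_right _ _).trans m1) m5 m4 α β γ u
    (by rw [hdiv]; exact hα) (by rw [hdiv]; exact hβ) (by rw [hdiv]; exact hαβ) hγ
    (by rw [hdiv]; exact hγ')
  have k1 := hx₂ x q hxb hSp α β γ u hα hβ hαβ hγ hγ'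
  have k2 := hx₂ x q hxb hSp (-β) (-α) γ u (by rwa [norm_neg]) (by rwa [norm_neg])
    (by rwa [show -β + -α = -(α + β) by ring, norm_neg]) hγ hγ'
  rw [show (1 / 2 + -β + u * I : ℂ) = 1 - (1 / 2 + β - u * I) by ring,
    show (1 / 2 + -α - u * I : ℂ) = 1 - (1 / 2 + α + u * I) by ring] at k2
  have hntop : qi F q ≠ ⊤ := by
    intro h
    have h1 : nm (qi F q) = 1 := by
      rw [h]
      unfold nm
      rw [Ideal.absNorm_top, Nat.cast_one]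
    rw [hcA2, hfr] at h1
    have h2 : (1 : ℝ) < (q : ℝ) ^ (2 * r) :=
      one_lt_pow₀ (by exact_mod_cast hq2) (by omega)
    linarith
  set M : ℝ := Mo F ε₁ q with hM
  set Q : ℝ := cB F (qi F q) ^ 2 with hQ
  set s₁ : ℂ := 1 / 2 + α + u * I with hs₁
  set s₂ : ℂ := 1 / 2 + β - u * I with hs₂
  have hre1 : s₁.re = 1 / 2 + α.re := by simp [hs₁]
  have hre2 : s₂.re = 1 / 2 + β.re := by simp [hs₂]
  have hαδ : |α.re| ≤ 1 / 4 := (Complex.abs_re_le_norm _).trans (hα.trans hl2)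
  have hβδ : |β.re| ≤ 1 / 4 := (Complex.abs_re_le_norm _).trans (hβ.trans hl2)
  have hu0 : 0 ≤ |u| := abs_nonneg u
  have hu1 : 1 ≤ 1 + |u| := by linarith
  -- the functional equation
  obtain ⟨hfin, -⟩ := hIE F q hSp.sq
  have hterm : ∀ χ ∈ Pr F (qi F q), Zx χ s₁ *
      (starRingEnd ℂ) (Zx χ (1 / 2 + (starRingEnd ℂ) β + u * I)) *
        ((‖pol M (cg F M γ u) χ.ψ‖ ^ 2 : ℝ) : ℂ) =
      A2n Q s₁ s₂ χ.ψ * (pol M (cg F M γ u) χ.ψ *
          pol M (cg F M γ (-u)) (fun I => (starRingEnd ℂ) (χ.ψ I))) +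
        Xn r (cB F (qi F q)) s₁ s₂ *
          (A2n Q (1 - s₂) (1 - s₁) χ.ψ * (pol M (cg F M γ u) χ.ψ *
            pol M (cg F M γ (-u)) (fun I => (starRingEnd ℂ) (χ.ψ I)))) := by
    intro χ hχ
    have hχ' : χ.f = qi F q := hχ
    have hf : χ.f ≠ ⊤ := by rw [hχ']; exact hntop
    have h7 := hAF F χ hf (Zx χ) (Pool.Agent.H91.CRZ.Zx_ent F χ hf) s₁ s₂
      (by linarith [neg_abs_le α.re]) (by linarith [le_abs_self α.re])
      (by linarith [neg_abs_le β.re]) (by linarith [le_abs_self β.re])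
    have h8 : (starRingEnd ℂ) s₂ = 1 / 2 + (starRingEnd ℂ) β + u * I := by
      apply Complex.ext
      · simp [hs₂]
      · simp [hs₂]
    rw [h8, hχ'] at h7
    rw [h7, ← conj_polw, Complex.mul_conj, Complex.normSq_eq_norm_sq]
    ring
  have hsum : (∑ᶠ χ ∈ Pr F (qi F q), Zx χ s₁ *
      (starRingEnd ℂ) (Zx χ (1 / 2 + (starRingEnd ℂ) β + u * I)) *
        ((‖pol M (cg F M γ u) χ.ψ‖ ^ 2 : ℝ) : ℂ)) =
      (∑ᶠ χ ∈ Pr F (qi F q), A2n Q s₁ s₂ χ.ψ * (pol M (cg F M γ u) χ.ψ *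
          pol M (cg F M γ (-u)) (fun I => (starRingEnd ℂ) (χ.ψ I)))) +
        Xn r (cB F (qi F q)) s₁ s₂ *
          ∑ᶠ χ ∈ Pr F (qi F q), A2n Q (1 - s₂) (1 - s₁) χ.ψ *
          (pol M (cg F M γ u) χ.ψ *
            pol M (cg F M γ (-u)) (fun I => (starRingEnd ℂ) (χ.ψ I))) := by
    rw [finsum_mem_eq_finite_toFinset_sum _ hfin, finsum_mem_eq_finite_toFinset_sum _ hfin,
      finsum_mem_eq_finite_toFinset_sum _ hfin, Finset.mul_sum, ← Finset.sum_add_distrib]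
    exact Finset.sum_congr rfl fun χ hχ => hterm χ (by simpa using hχ)
  rw [hsum]
  have hLg : Lg F q = 2 * Real.log (cB F (qi F q)) := rfl
  rw [hLg]
  set S₁ : ℂ := ∑ᶠ χ ∈ Pr F (qi F q), A2n Q s₁ s₂ χ.ψ * (pol M (cg F M γ u) χ.ψ *
          pol M (cg F M γ (-u)) (fun I => (starRingEnd ℂ) (χ.ψ I))) with hS₁
  set S₂ : ℂ := ∑ᶠ χ ∈ Pr F (qi F q), A2n Q (1 - s₂) (1 - s₁) χ.ψ *
          (pol M (cg F M γ u) χ.ψ *
            pol M (cg F M γ (-u)) (fun I => (starRingEnd ℂ) (χ.ψ I))) with hS₂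
  set X : ℂ := Xn r (cB F (qi F q)) s₁ s₂ with hXX
  set D₁ : ℂ := Dn (K := F) ⊤ Q M s₁ s₂ (cg F M γ u) (cg F M γ (-u)) ⊤ ⊤ with hD₁
  set D₂ : ℂ := Dn (K := F) ⊤ Q M (1 - s₂) (1 - s₁) (cg F M γ u) (cg F M γ (-u)) ⊤ ⊤ with hD₂
  set m : ℂ := 1 / (α + β) * E (1 + (α + β)) * QF F M (α + γ) (β + γ) (α + β) ∅ ∅ -
    X * (1 / (α + β) * E (1 - (α + β)) * QF F M (-β + γ) (-α + γ) (-(α + β)) ∅ ∅) with hm
  set b : ℂ := Bmw α β γ (2 * Real.log (cB F (qi F q))) (Real.log M) with hb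
  set N : ℝ := (nc (qi F q) (qi F q) : ℝ) with hN
  have hN0 : 0 ≤ N := Nat.cast_nonneg _
  have hNc : ((nc (qi F q) (qi F q) : ℕ) : ℂ) = (N : ℂ) := by
    rw [hN]
    push_cast
    rfl
  rw [hNc] at k1 k2 ⊢
  exact Pool.Agent.H19.SM.Bz_fin S₁ S₂ X D₁ D₂ m b N η CX (1 + |u|) BX B₁ B₂ B₃ hN0 hu1 hη hCX hBX
    hB₁ hB₂ hB₃
    k1 hX' k2 hDI' hBM'

end Pool.Agent.H25.SM
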