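import Pool.Agent.H20.SM.TZ
import Pool.Agent.H65.CRG.All

/-!
# FBz: the auxiliary function far to the right (MP_347b49_nt; model H11/CRG/FB)
-/

set_option autoImplicit false

open NumberField NumberField.InfinitePlace Complex Filter Topology MeasureTheory

namespace Pool.Agent.H25.SM

open Pool.Agent.H28.RC Pool.Agent.H25.HK Pool.Agent.H37.CV Pool.Agent.H65.CRZ Pool.Agent.H65.CRG
open Pool.Agent.H20.SM
open Pool.Agent.H65.CRG.Base (c_H2)
open Pool.Agent.H11.CRG (iter_le log_near ml_near vq_near)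

theorem pf_FBz (hLF : T_LFz) (hCQ : T_CQz) : T_FBz := by
  intro K _ _ _ N m R ε₁ hm hR hε hε2
  obtain ⟨c, hcd, hcV, hcB⟩ := d_TR (nrComplexPlaces K) N m hm
  obtain ⟨hq0, -⟩ := d_QI N m hm
  obtain ⟨C1, hC1, hL, hM⟩ := c_H2 K
  obtain ⟨CL, q1, -, hLF⟩ := hLF K
  obtain ⟨hn, -, c0, hc0, hcq⟩ := hCQ K
  have hC10 : 0 ≤ C1 := by linarith
  obtain ⟨C2, hC2⟩ : ∃ C2 : ℝ, C2 = 2 * C1 + 1 + ∑ i ∈ Finset.range (2 * N),
      (|qm N m (i + 1)| + 1) * ((i + 1).factorial * (2 * C1)) := ⟨_, rfl⟩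
  have hC21 : 1 ≤ C2 := by
    have : 0 ≤ ∑ i ∈ Finset.range (2 * N),
      (|qm N m (i + 1)| + 1) * ((i + 1).factorial * (2 * C1)) :=
      Finset.sum_nonneg fun i _ => by positivity
    rw [hC2]
    linarith
  obtain ⟨C3, hC3⟩ : ∃ C3 : ℝ, C3 = C2 * (1 + C1) + C1 := ⟨_, rfl⟩
  have hC31 : 1 ≤ C3 := by
    rw [hC3]
    nlinarith
  -- the abscissa
  obtain ⟨b₁, hb₁⟩ : ∃ b₁ : ℝ, ∀ b : ℝ, b₁ ≤ b → C3 * (2 : ℝ) ^ (-b) ≤ 1 / 2 := by
    have h7 : Tendsto (fun b : ℝ => C3 * (2 : ℝ) ^ (-b)) atTop (𝓝 (C3 * 0)) := by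
      apply Tendsto.const_mul
      have h8 := tendsto_rpow_atTop_of_base_lt_one (1 / 2 : ℝ) (by norm_num) (by norm_num)
      refine h8.congr fun b => ?_
      rw [Real.rpow_neg two_pos.le, one_div, Real.inv_rpow two_pos.le]
    rw [mul_zero] at h7
    exact eventually_atTop.1 (h7.eventually_le_const (by norm_num))
  refine ⟨1 + 4 * C3, max 4 b₁, by linarith, le_max_left _ _, fun b T hb hT => ?_⟩
  have hb4 : 4 ≤ b := (le_max_left _ _).trans hb
  have hbC := hb₁ b ((le_max_right _ _).trans hb)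
  obtain ⟨B, hB, hBc⟩ := hcB (2 * b + 1) (T + 1)
  obtain ⟨δ, hδ⟩ : ∃ δ : ℝ, δ = (2 : ℝ) ^ (-(2 * b + 1)) := ⟨_, rfl⟩
  have hδ0 : 0 < δ := by rw [hδ]; exact Real.rpow_pos_of_pos two_pos _
  have hδ1 : δ ≤ 1 := by
    rw [hδ]
    exact Real.rpow_le_one_of_one_le_of_nonpos one_le_two (by linarith)
  -- the conductor is large
  obtain ⟨q2, hq2⟩ : ∃ q2 : ℕ, ∀ q : ℕ, q2 ≤ q → max (Real.exp 1) (Real.exp (B / δ)) ≤ c0 * q := by
    have h7 : Tendsto (fun q : ℕ => c0 * (q : ℝ)) atTop atTop :=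
      tendsto_natCast_atTop_atTop.const_mul_atTop hc0
    exact eventually_atTop.1 (h7.eventually_ge_atTop _)
  refine ⟨max q1 (max q2 1), fun q hqm χ hχ s hs1 hs2 hs3 => ?_⟩
  have hqq1 : q1 ≤ q := (le_max_left _ _).trans hqm
  have hqq2 : q2 ≤ q := (le_max_left _ _).trans ((le_max_right _ _).trans hqm)
  have hqq3 : 1 ≤ q := (le_max_right _ _).trans ((le_max_right _ _).trans hqm)
  have hqr : (1 : ℝ) ≤ q := by exact_mod_cast hqq3
  obtain ⟨A, hA⟩ : ∃ A : ℝ, A = cB K (qi K q) := ⟨_, rfl⟩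
  have hAq : c0 * q ≤ A := by
    rw [hA, (hcq q hqq3).1]
    apply mul_le_mul_of_nonneg_left _ hc0.le
    calc (q : ℝ) = (q : ℝ) ^ 1 := (pow_one _).symm
      _ ≤ (q : ℝ) ^ nrComplexPlaces K := pow_le_pow_right₀ hqr hn
  have hAe : Real.exp 1 ≤ A := ((le_max_left _ _).trans (hq2 q hqq2)).trans hAq
  have hAB : Real.exp (B / δ) ≤ A := ((le_max_right _ _).trans (hq2 q hqq2)).trans hAq
  have he : (2 : ℝ) ≤ Real.exp 1 := by
    have := Real.add_one_le_exp (1 : ℝ)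
    linarith
  have hA2 : 2 ≤ A := he.trans hAe
  have hA0 : 0 < A := by linarith
  have hlog1 : 1 ≤ Real.log A := by
    rw [Real.le_log_iff_exp_le hA0]
    exact hAe
  have hlogB : B / Real.log A ≤ δ := by
    have h7 : B / δ ≤ Real.log A := by
      rw [Real.le_log_iff_exp_le hA0]
      exact hAB
    rw [div_le_iff₀ (by linarith)]
    rw [div_le_iff₀ hδ0] at h7
    linarith
  obtain ⟨hEnt, hLFg⟩ := hLF q hqq1 χ hχ
  have hZd : Differentiable ℂ (Zx χ) := hEnt.1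
  have hZ1 : ∀ s : ℂ, 3 / 2 ≤ s.re → ‖Zx χ s - 1‖ ≤ C1 * (2 : ℝ) ^ (-s.re) := by
    intro s hs
    rw [hEnt.2 s (by linarith)]
    exact (hL χ s hs).2
  have hσ : sl K R q ≤ 1 / 2 := by
    have h7 : 0 ≤ R / Lg K q := by
      rw [Lg, ← hA]
      positivity
    rw [sl]
    linarith
  have hMq : 1 ≤ Mo K ε₁ q := by
    rw [Mo, (hcq q hqq3).2]
    exact Real.one_le_rpow (one_le_pow₀ hqr) (by linarith)
  -- differentiability
  have hVd : ∀ z : ℂ, 0 < z.re → DifferentiableAt ℂ (VQ (nrComplexPlaces K) N m A (Zx χ)) z :=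
    fun z hz => (hcV A (Zx χ) z (by linarith) hZd hz).2.1
  have hfd : ∀ z : ℂ, 0 < z.re → DifferentiableAt ℂ (fz N m R ε₁ q χ) z := by
    intro z hz
    have h7 := (hVd z hz).mul ((Pool.Agent.H11.CRG.ml_diff (Mo K ε₁ q) (sl K R q) χ.ψ) z)
    rw [hA] at h7
    exact h7
  -- the function is near one
  have hnear : ∀ z : ℂ, 5 / 2 ≤ z.re → z.re ≤ 2 * b + 1 → |z.im| ≤ T + 1 →
      ‖fz N m R ε₁ q χ z - 1‖ ≤ C3 * (2 : ℝ) ^ (-z.re) := by
    intro z hz1 hz2 hz3
    have hp : (0 : ℝ) < (2 : ℝ) ^ (-z.re) := Real.rpow_pos_of_pos two_pos _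
    have hp1 : (2 : ℝ) ^ (-z.re) ≤ 1 :=
      Real.rpow_le_one_of_one_le_of_nonpos one_le_two (by linarith)
    have h7 : ‖VQ (nrComplexPlaces K) N m A (Zx χ) z - 1‖ ≤ C2 * (2 : ℝ) ^ (-z.re) := by
      rw [hC2]
      refine vq_near (N := N) (m := m) (δ := δ) hq0 (c := c A) (L := 2 * Real.log A)
        (hcV A (Zx χ) z (by linarith) hZd (by linarith)).2.2 hZd hZ1 hC10 (by linarith) hz1 hδ1 ?_
        (fun i => (hBc A i z hA2 (by linarith) hz2 hz3).trans hlogB)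
      rw [hδ]
      exact Real.rpow_le_rpow_of_exponent_le one_le_two (by linarith)
    have h8 : ‖ml (Mo K ε₁ q) (sl K R q) χ.ψ z - 1‖ ≤ C1 * (2 : ℝ) ^ (-z.re) :=
      ml_near hC10 hM hMq hσ χ (by linarith)
    have h9 : ‖ml (Mo K ε₁ q) (sl K R q) χ.ψ z‖ ≤ 1 + C1 := by
      have h10 : ml (Mo K ε₁ q) (sl K R q) χ.ψ z =
          1 + (ml (Mo K ε₁ q) (sl K R q) χ.ψ z - 1) := by ring
      rw [h10]
      refine (norm_add_le _ _).trans ?_
      rw [norm_one]
      nlinarith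
    have h10 : fz N m R ε₁ q χ z - 1 =
        (VQ (nrComplexPlaces K) N m A (Zx χ) z - 1) * ml (Mo K ε₁ q) (sl K R q) χ.ψ z +
          (ml (Mo K ε₁ q) (sl K R q) χ.ψ z - 1) := by
      rw [fz, ← hA]
      ring
    rw [h10]
    refine (norm_add_le _ _).trans ?_
    rw [norm_mul]
    have h11 : ‖VQ (nrComplexPlaces K) N m A (Zx χ) z - 1‖ *
        ‖ml (Mo K ε₁ q) (sl K R q) χ.ψ z‖ ≤ C2 * (2 : ℝ) ^ (-z.re) * (1 + C1) :=
      mul_le_mul h7 h9 (norm_nonneg _) (by positivity)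
    rw [hC3]
    linarith
  refine ⟨hfd s (by linarith), fun hs4 => ?_, fun hsb => ?_⟩
  · have h7 := hnear s (by linarith) (by linarith) (by linarith)
    have hp1 : (2 : ℝ) ^ (-s.re) ≤ 1 :=
      Real.rpow_le_one_of_one_le_of_nonpos one_le_two (by linarith)
    have h10 : fz N m R ε₁ q χ s = 1 + (fz N m R ε₁ q χ s - 1) := by ring
    rw [h10]
    refine (norm_add_le _ _).trans ?_
    rw [norm_one]
    nlinarith
  · have hp : (0 : ℝ) < (2 : ℝ) ^ (-b) := Real.rpow_pos_of_pos two_pos _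
    have h7 := hnear s (by linarith) (by linarith) (by linarith)
    rw [hsb] at h7
    have h8 : |‖fz N m R ε₁ q χ s‖ - 1| ≤ C3 * (2 : ℝ) ^ (-b) := by
      have h9 := abs_norm_sub_norm_le (fz N m R ε₁ q χ s) 1
      rw [norm_one] at h9
      exact h9.trans h7
    have h9 : 1 / 2 ≤ ‖fz N m R ε₁ q χ s‖ := by
      have := (abs_le.1 h8).1
      linarith
    have h10 : ‖deriv (fz N m R ε₁ q χ) s‖ ≤ 2 * C3 * (2 : ℝ) ^ (-b) := by
      have h11 : deriv (fz N m R ε₁ q χ) s = deriv (fun z => fz N m R ε₁ q χ z - 1) s :=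
        (deriv_sub_const _).symm
      rw [h11]
      have hball : ∀ z ∈ Metric.closedBall s 1, b - 1 ≤ z.re ∧ z.re ≤ b + 1 ∧ |z.im| ≤ T + 1 := by
        intro z hz
        rw [mem_closedBall_iff_norm] at hz
        have h12 : |(z - s).re| ≤ 1 := (Complex.abs_re_le_norm _).trans hz
        have h13 : |(z - s).im| ≤ 1 := (Complex.abs_im_le_norm _).trans hz
        rw [Complex.sub_re, abs_le] at h12
        refine ⟨by linarith [h12.1], by linarith [h12.2], ?_⟩
        have h14 : z.im = s.im + (z - s).im := by rw [Complex.sub_im]; ring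
        rw [h14]
        exact (abs_add_le _ _).trans (by linarith)
      have h12 := Complex.norm_deriv_le_of_forall_mem_sphere_norm_le
        (f := fun z => fz N m R ε₁ q χ z - 1) (c := s) (R := 1)
        (C := 2 * C3 * (2 : ℝ) ^ (-b)) one_pos (by
          apply DifferentiableOn.diffContOnCl_ball (U := Metric.closedBall s 1) _ subset_rfl
          intro z hz
          have h13 := hball z hz
          exact ((hfd z (by linarith)).sub_const 1).differentiableWithinAt) (by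
          intro z hz
          have h13 := hball z (Metric.sphere_subset_closedBall hz)
          refine (hnear z (by linarith) (by linarith) h13.2.2).trans ?_
          have h14 : (2 : ℝ) ^ (-z.re) ≤ 2 * (2 : ℝ) ^ (-b) := by
            calc (2 : ℝ) ^ (-z.re) ≤ (2 : ℝ) ^ (1 + -b) :=
                  Real.rpow_le_rpow_of_exponent_le one_le_two (by linarith [h13.1])
              _ = 2 * (2 : ℝ) ^ (-b) := by rw [Real.rpow_add two_pos, Real.rpow_one]
          calc C3 * (2 : ℝ) ^ (-z.re) ≤ C3 * (2 * (2 : ℝ) ^ (-b)) :=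
                mul_le_mul_of_nonneg_left h14 (by linarith)
            _ = _ := by ring)
      rw [div_one] at h12
      exact h12
    refine ⟨fun h0 => ?_, ?_, ?_⟩
    · rw [h0, norm_zero] at h9
      norm_num at h9
    · refine (log_near h9).trans ?_
      nlinarith
    · refine h10.trans ?_
      have h11 : 0 < C3 * (2 : ℝ) ^ (-b) := by positivity
      nlinarith

end Pool.Agent.H25.SM
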