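import Pool.Agent.H20.SM.TZ
import Pool.Agent.H65.CRG.All

/-!
# A cofinal family of Galois extensions: the zeros on the critical line, the assembly

The model is `Pool/Agent/H65/CRG/FM.lean`.
-/

set_option autoImplicit false

open NumberField NumberField.InfinitePlace Complex Filter Topology MeasureTheory Set

namespace Pool.Agent.H25.SM

open Pool.Agent.H28.RC Pool.Agent.H25.HK Pool.Agent.H37.CV Pool.Agent.H65.CRZ Pool.Agent.H65.CRG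
  Pool.Agent.H20.SM

/-- the moduli are large -/
theorem q_large {F : Type} [Field F] [NumberField F] (A B : ℕ) :
    ∃ x₀ : ℝ, ∀ (x : ℝ) (q : ℕ), x₀ ≤ x → Sp F A x q → B ≤ q := by
  refine ⟨max (Real.exp 1) ((B : ℝ) ^ 2), fun x q hx hq => ?_⟩
  have hx1 : Real.exp 1 ≤ x := (le_max_left _ _).trans hx
  have hx2 : (B : ℝ) ^ 2 ≤ x := (le_max_right _ _).trans hx
  have hx0 : 0 < x := (Real.exp_pos 1).trans_le hx1
  have hl : 1 ≤ Real.log x := by rw [Real.le_log_iff_exp_le hx0]; exact hx1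
  have h1 : (0 : ℝ) < (q.primeFactors.card : ℝ) :=
    lt_of_lt_of_le one_pos ((one_le_pow₀ hl).trans hq.lo)
  have h2 : 0 < q.primeFactors.card := by exact_mod_cast h1
  obtain ⟨p, hp⟩ := Finset.card_pos.1 h2
  have h3 := hq.low p hp
  have h4 : p ≤ q := Nat.le_of_dvd (Nat.pos_of_ne_zero (Nat.mem_primeFactors.1 hp).2.2)
    (Nat.mem_primeFactors.1 hp).2.1
  have h5 : (B : ℝ) ≤ Real.sqrt x := Real.le_sqrt_of_sq_le hx2
  have h6 : (B : ℝ) ≤ p := h5.trans h3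
  have h7 : B ≤ p := by exact_mod_cast h6
  exact h7.trans h4

/-- the family is finite and not empty -/
theorem Pr_posz {F : Type} [Field F] [NumberField F] [IsTotallyComplex F] [IsGalois ℚ F]
    (hIE : T_IEq) (hPNC : T_PNC) (hNCR : T_NCR) (A : ℕ) :
    ∃ x₀ : ℝ, ∀ (x : ℝ) (q : ℕ), x₀ ≤ x → Sp F A x q →
      (Pr F (qi F q)).Finite ∧ 0 < (Pr F (qi F q)).ncard := by
  obtain ⟨C, E, _, _, hN⟩ := hNCR F
  obtain ⟨x₁, hN⟩ := hN A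
  obtain ⟨x₂, hP⟩ := hPNC F A (1 / 2) (by norm_num)
  refine ⟨max x₁ x₂, fun x q hx hq => ?_⟩
  have h1 := (hN x q ((le_max_left _ _).trans hx) hq).1
  have h2 := (hP x q ((le_max_right _ _).trans hx) hq).1
  have h3 : (0 : ℝ) < (nc (qi F q) (qi F q) : ℝ) := by exact_mod_cast h1
  have h4 : (0 : ℝ) < ((Pr F (qi F q)).ncard : ℝ) := lt_of_lt_of_le (by linarith) h2
  exact ⟨(hIE F q hq.sq).1, by exact_mod_cast h4⟩

/-- one character -/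
theorem one_chi {K : Type} [Field K] [NumberField K] (hZM : Pool.Agent.H65.CRZ.T_ZM) {N : ℕ}
    {m : ℕ → ℝ} {R ε₁ A b b₁ T T' D : ℝ} {q : ℕ}
    (hA : A = cB K (qi K q)) (hb : 1 < b) (hbb : b₁ ≤ b) (hD : 0 < D) (hT : 0 < T)
    (hT' : T' = T + D + 1) (χ : RCC K)
    (hV0 : ∀ s : ℂ, 1 / 8 < s.re → s.re < 2 * b → |s.im| < T' →
      DifferentiableAt ℂ (VQ (nrComplexPlaces K) N m A (Zx χ)) s)
    (hne : fz N m R ε₁ q χ ((b : ℂ) + (0 : ℝ) * I) ≠ 0)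
    (hfin : {ρ : ℂ | 1 / 2 ≤ ρ.re ∧ ρ.re < b ∧ ρ ∈ St T ∧ fz N m R ε₁ q χ ρ = 0}.Finite) :
    zc (VQ (nrComplexPlaces K) N m A (Zx χ)) {ρ : ℂ | 1 / 2 ≤ ρ.re ∧ ρ.re < b₁ ∧ ρ ∈ St T} ≤
      zc (fz N m R ε₁ q χ) {ρ : ℂ | 1 / 2 ≤ ρ.re ∧ ρ.re < b ∧ ρ ∈ St T} := by
  have hU : ∀ s ∈ {ρ : ℂ | 1 / 2 ≤ ρ.re ∧ ρ.re < b ∧ ρ ∈ St T}, s ∈ UU b T' := by
    rintro s ⟨h3, h4, h5, h6⟩
    exact mem_UU hb hD hT hT' (by linarith) h4.le (by linarith) (by linarith)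
  have hVan : AnalyticOnNhd ℂ (VQ (nrComplexPlaces K) N m A (Zx χ)) (UU b T') := by
    apply DifferentiableOn.analyticOnNhd _ (UU_open b T')
    intro s hs
    exact (hV0 s (by linarith [hs.1]) hs.2.1 hs.2.2).differentiableWithinAt
  have hMan : AnalyticOnNhd ℂ (ml (Mo K ε₁ q) (sl K R q) χ.ψ) (UU b T') := by
    apply DifferentiableOn.analyticOnNhd _ (UU_open b T')
    intro s _
    exact (ml_diff _ _ _ s).differentiableWithinAt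
  have hbU : ((b : ℂ) + (0 : ℝ) * I) ∈ UU b T' := by
    refine mem_UU hb hD hT hT' ?_ ?_ ?_ ?_
    · simp; linarith
    · simp
    · simp; linarith
    · simp; linarith
  have h4 : (fun s => VQ (nrComplexPlaces K) N m A (Zx χ) s *
      ml (Mo K ε₁ q) (sl K R q) χ.ψ s) = fz N m R ε₁ q χ := by
    funext s
    unfold fz
    rw [← hA]
  have hne1 : VQ (nrComplexPlaces K) N m A (Zx χ) ((b : ℂ) + (0 : ℝ) * I) ≠ 0 ∧
      ml (Mo K ε₁ q) (sl K R q) χ.ψ ((b : ℂ) + (0 : ℝ) * I) ≠ 0 := by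
    rw [← h4] at hne
    exact mul_ne_zero_iff.1 hne
  have h3 := (hZM.1 (VQ (nrComplexPlaces K) N m A (Zx χ)) (ml (Mo K ε₁ q) (sl K R q) χ.ψ)
    {ρ : ℂ | 1 / 2 ≤ ρ.re ∧ ρ.re < b₁ ∧ ρ ∈ St T} {ρ : ℂ | 1 / 2 ≤ ρ.re ∧ ρ.re < b ∧ ρ ∈ St T}
    (by
      rintro s ⟨h4, h5, h6⟩
      exact ⟨h4, lt_of_lt_of_le h5 hbb, h6⟩)
    (by
      intro s hs
      exact ⟨hVan s (hU s hs), hMan s (hU s hs),
        Pool.Agent.H18.PZ.order_ne_top (UU_conn b T') hVan hbU hne1.1 (hU s hs),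
        Pool.Agent.H18.PZ.order_ne_top (UU_conn b T') hMan hbU hne1.2 (hU s hs)⟩)
    (by
      refine hfin.subset ?_
      rintro s ⟨⟨h5, h6, h7⟩, h8⟩
      refine ⟨h5, h6, h7, ?_⟩
      rw [← h4]
      exact h8)).2.1
  rw [h4] at h3
  exact h3

/-- the number of the zeros of the auxiliary functions -/
theorem car_app {K : Type} [Field K] [NumberField K] (hCM : Pool.Agent.H65.CRZ.T_CM) {N : ℕ}
    {m : ℕ → ℝ} {R ε₁ b T D T' C₂ C₃ Q₁ : ℝ} {q : ℕ} (hR : 0 < R)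
    (hb4 : 4 ≤ b) (hC₃ : 1 ≤ C₃) (hT : 0 < T) (hD : 0 < D) (hQ₁ : 1 ≤ Q₁)
    (hT' : T' = T + D + 1) (hL6 : 5 * R ≤ Lg K q) (hL0 : 0 < Lg K q) [Fintype (Pr K (qi K q))]
    (hFB : ∀ χ ∈ Pr K (qi K q), ∀ s : ℂ, 1 / 4 < s.re → s.re < 2 * b → |s.im| < T' →
        DifferentiableAt ℂ (fz N m R ε₁ q χ) s ∧
        (4 ≤ s.re → ‖fz N m R ε₁ q χ s‖ ≤ C₂) ∧
        (s.re = b → fz N m R ε₁ q χ s ≠ 0 ∧
          |Real.log ‖fz N m R ε₁ q χ s‖| ≤ C₂ * (2 : ℝ) ^ (-b) ∧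
          ‖deriv (fz N m R ε₁ q χ) s‖ ≤
            C₂ * (2 : ℝ) ^ (-b) * ‖fz N m R ε₁ q χ s‖))
    (hIN : ∀ x t : ℝ, sl K R q ≤ x → x ≤ b → |t| ≤ T' →
      ∑ᶠ χ ∈ Pr K (qi K q), ‖fz N m R ε₁ q χ (x + t * I)‖ ^ 2 ≤
        C₃ * (Pr K (qi K q)).ncard)
    (hLE : ∀ t : ℝ, |t| ≤ T' → ∑ᶠ χ ∈ Pr K (qi K q),
      ‖fz N m R ε₁ q χ (sl K R q + t * I)‖ ^ 2 ≤
        Q₁ * (Pr K (qi K q)).ncard) :
    (∀ χ ∈ Pr K (qi K q), {ρ : ℂ | 1 / 2 ≤ ρ.re ∧ ρ.re < b ∧ ρ ∈ St T ∧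
      fz N m R ε₁ q χ ρ = 0}.Finite) ∧
    4 * D * (1 / 2 - sl K R q) * ∑ i : Pr K (qi K q),
      zc (fz N m R ε₁ q i.1) {ρ : ℂ | 1 / 2 ≤ ρ.re ∧ ρ.re < b ∧ ρ ∈ St T} ≤
      (T + D) * (D / Real.pi * Real.log Q₁ +
      (b - sl K R q) * Real.sinh (Real.pi * (b - sl K R q) / D) * Real.log C₃ +
      (D + 2) * D * Real.cosh (Real.pi * (b - sl K R q) / D) * (C₂ * (2 : ℝ) ^ (-b))) *
        (Pr K (qi K q)).ncard := by
  have hcard : (Fintype.card (Pr K (qi K q)) : ℝ) = (Pr K (qi K q)).ncard := by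
    rw [← Nat.card_coe_set_eq, Nat.card_eq_fintype_card]
  obtain ⟨a, ha⟩ : ∃ a : ℝ, a = sl K R q := ⟨_, rfl⟩
  have ha' : a = 1 / 2 - R / Lg K q := by rw [ha, sl]
  have hRL : R / Lg K q ≤ 1 / 5 := by
    rw [div_le_iff₀ hL0]; linarith
  have hRL0 : 0 < R / Lg K q := div_pos hR hL0
  have ha1 : 1 / 4 < a := by rw [ha']; linarith
  have ha2 : a < 1 / 2 := by rw [ha']; linarith
  rw [← ha] at hIN hLE ⊢
  have hmem : ∀ s : ℂ, a ≤ s.re → s.re ≤ b → -D ≤ s.im → s.im ≤ T + D → s ∈ UU b T' :=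
    fun s h1 h2 h3 h4 => mem_UU (by linarith) hD hT hT' (by linarith) h2 h3 h4
  have hab : ∀ t ∈ Icc (-D) (T + D), |t| ≤ T' := by
    intro t ht
    rw [abs_le, hT']
    constructor <;> linarith [ht.1, ht.2]
  have c1 : ∀ i : Pr K (qi K q), ∀ s ∈ UU b T',
      DifferentiableAt ℂ (fz N m R ε₁ q i.1) s :=
    fun i s hs => (hFB i.1 i.2 s hs.1 hs.2.1 hs.2.2).1
  have c2 : ∀ i : Pr K (qi K q), ∀ t ∈ Icc (-D) (T + D),
      fz N m R ε₁ q i.1 (b + t * I) ≠ 0 ∧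
      |Real.log ‖fz N m R ε₁ q i.1 (b + t * I)‖| ≤ C₂ * (2 : ℝ) ^ (-b) ∧
      ‖deriv (fz N m R ε₁ q i.1) (b + t * I)‖ ≤
        C₂ * (2 : ℝ) ^ (-b) * ‖fz N m R ε₁ q i.1 (b + t * I)‖ := by
    intro i t ht
    have e1 : ((b : ℂ) + t * I).re = b := by simp
    have e2 : ((b : ℂ) + t * I).im = t := by simp
    have hs := hmem ((b : ℂ) + t * I) (by rw [e1]; linarith) (by rw [e1]) (by rw [e2]; exact ht.1)
      (by rw [e2]; exact ht.2)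
    exact (hFB i.1 i.2 _ hs.1 hs.2.1 hs.2.2).2.2 e1
  have c3 : ∀ t ∈ Icc (-D) (T + D), ∑ i : Pr K (qi K q),
      ‖fz N m R ε₁ q i.1 (a + t * I)‖ ^ 2 ≤ Q₁ * Fintype.card (Pr K (qi K q)) := by
    intro t ht
    have h1 := hLE t (hab t ht)
    rw [fsum_coe] at h1
    rw [hcard]
    exact h1
  have c4 : ∀ t ∈ Icc (-D) (T + D), ∀ x ∈ Icc a b, ∑ i : Pr K (qi K q),
      ‖fz N m R ε₁ q i.1 (x + t * I)‖ ^ 2 ≤
        C₃ * Fintype.card (Pr K (qi K q)) := by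
    intro t ht x hx
    have h1 := hIN x t hx.1 hx.2 (hab t ht)
    rw [fsum_coe] at h1
    rw [hcard]
    exact h1
  obtain ⟨k1, k2⟩ := hCM (Pr K (qi K q)) (fun i => fz N m R ε₁ q i.1) a (1 / 2)
    b T D (C₂ * (2 : ℝ) ^ (-b)) Q₁ C₃ (UU b T') ha2 (by linarith) hT hD hQ₁
    hC₃ (UU_open b T') (UU_conn b T') c1 hmem c2 c3 c4
  rw [hcard] at k2
  exact ⟨fun χ hχ => k1 ⟨χ, hχ⟩, k2⟩

theorem pf_FMz (hLF : T_LFz) (hFB : T_FBz) (hIN : T_INz) (hLE : T_LEz) (hCQ : T_CQz)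
    (hIE : T_IEq) (hPNC : T_PNC) (hNCR : T_NCR) : T_FMz := by
  intro K _ _ _ _
  obtain ⟨a₁, hIN⟩ := hIN K
  obtain ⟨a₂, hLE⟩ := hLE K
  refine ⟨max a₁ a₂, fun E N m R ε₁ hE hm0 hR hε₁ hε₁' ε₀ hε₀ => ?_⟩
  have hE₁ : a₁ ≤ E := (le_max_left _ _).trans hE
  have hE₂ : a₂ ≤ E := (le_max_right _ _).trans hE
  have hpi := Real.pi_pos
  obtain ⟨hn1, hdn, c, hc, hcq⟩ := hCQ K
  have hd2 : (Module.finrank ℚ K : ℝ) / 2 = nrComplexPlaces K := by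
    rw [hdn]; push_cast; ring
  obtain ⟨x₀, hx₀⟩ : ∃ x₀ : ℝ, x₀ = cQ N m R ((1 - 2 * ε₁) / 2) := ⟨_, rfl⟩
  have hx₀1 : 1 ≤ x₀ := by
    rw [hx₀]
    exact d_Q1 N m R _ hm0 (div_pos (by linarith) two_pos)
  obtain ⟨κ, hκ⟩ : ∃ κ : ℝ, κ = 1 - Real.log x₀ / R := ⟨_, rfl⟩
  have hκ1 : κ ≤ 1 := by
    have : 0 ≤ Real.log x₀ / R := div_nonneg (Real.log_nonneg hx₀1) hR.le
    linarith
  rw [← hx₀, ← hκ, hd2]
  obtain ⟨ε, hεdef⟩ : ∃ ε : ℝ, ε = min ε₀ (1 / 10) := ⟨_, rfl⟩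
  have hε : 0 < ε := by rw [hεdef]; exact lt_min hε₀ (by norm_num)
  have hε1 : ε ≤ 1 / 10 := by rw [hεdef]; exact min_le_right _ _
  have hεε : ε ≤ ε₀ := by rw [hεdef]; exact min_le_left _ _
  obtain ⟨δ, hδ⟩ : ∃ δ : ℝ, δ = ε * R / 8 := ⟨_, rfl⟩
  have hδ0 : 0 < δ := by rw [hδ]; positivity
  obtain ⟨Q₁, hQ₁⟩ : ∃ Q₁ : ℝ, Q₁ = x₀ + δ := ⟨_, rfl⟩
  have hQ₁1 : 1 ≤ Q₁ := by rw [hQ₁]; linarith
  have hlQ : Real.log Q₁ / R ≤ 1 - κ + ε / 8 := by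
    have h1 : Real.log Q₁ ≤ Real.log x₀ + δ := by
      have h2 : Q₁ = x₀ * (1 + δ / x₀) := by rw [hQ₁]; field_simp
      have h3 : 0 < 1 + δ / x₀ := by positivity
      rw [h2, Real.log_mul (by linarith) h3.ne']
      have h4 := Real.log_le_sub_one_of_pos h3
      have h5 : δ / x₀ ≤ δ := div_le_self hδ0.le hx₀1
      linarith
    have h2 : (Real.log x₀ + δ) / R = 1 - κ + ε / 8 := by
      rw [hκ, hδ]; field_simp; ring
    rw [← h2]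
    gcongr
  obtain ⟨C₁, q₁, hC₁, hLF⟩ := hLF K
  obtain ⟨C₂, b₂, hC₂, hb₂, hFB⟩ := hFB K N m R ε₁ hm0 hR hε₁ hε₁'
  obtain ⟨C₃, b₃, hC₃, hb₃, hIN⟩ := hIN E N m R ε₁ hE₁ hm0 hR hε₁ hε₁'
  obtain ⟨b₁, hb₁, hb₁'⟩ := choose_b C₁
  obtain ⟨C₄, hC₄, hLV⟩ := d_LV (nrComplexPlaces K) N m C₁ b₁ hm0 hC₁ hb₁ hb₁'
  obtain ⟨bs, hbs⟩ : ∃ bs : ℝ, bs = max (max b₂ b₃) (b₁ + 1) := ⟨_, rfl⟩
  have hbs2 : b₂ ≤ bs := by rw [hbs]; exact (le_max_left _ _).trans (le_max_left _ _)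
  have hbs3 : b₃ ≤ bs := by rw [hbs]; exact (le_max_right _ _).trans (le_max_left _ _)
  have hbs1 : b₁ + 1 ≤ bs := by rw [hbs]; exact le_max_right _ _
  obtain ⟨T₁, hT₁, hPh⟩ := Ph_bound bs C₂ (Real.log Q₁) (Real.log C₃)
    (ε * R / (8 * Real.pi)) (div_pos (by positivity) (by linarith))
  refine ⟨max T₁ (8 * Real.pi * C₄ / ε),
    lt_of_lt_of_le (by linarith : (0 : ℝ) < T₁) (le_max_left _ _), fun T hT => ?_⟩
  have hTT₁ : T₁ ≤ T := (le_max_left _ _).trans hT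
  have hT1 : 1 ≤ T := hT₁.trans hTT₁
  have hT0 : 0 < T := by linarith
  have hTC₄ : 8 * Real.pi * C₄ ≤ ε * T := by
    have h := (le_max_right _ _).trans hT
    rw [div_le_iff₀ hε] at h
    linarith
  have hPhT := hPh T hTT₁
  obtain ⟨D, hD⟩ : ∃ D : ℝ, D = Real.sqrt T := ⟨_, rfl⟩
  have hD1 : 1 ≤ D := by rw [hD]; exact Real.one_le_sqrt.2 hT1
  have hD0 : 0 < D := by linarith
  obtain ⟨b, hb⟩ : ∃ b : ℝ, b = bT bs T := ⟨_, rfl⟩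
  have hbbs : bs ≤ b := by
    rw [hb]
    unfold bT
    have h1 : 0 ≤ Real.log T / Real.log 2 :=
      div_nonneg (Real.log_nonneg hT1) (Real.log_pos (by norm_num)).le
    linarith
  obtain ⟨T', hT'⟩ : ∃ T' : ℝ, T' = T + D + 1 := ⟨_, rfl⟩
  have hT'0 : 0 < T' := by rw [hT']; linarith
  have hbC : C₁ * (2 : ℝ) ^ (-b) ≤ 1 / 100 := by
    refine le_trans ?_ hb₁'
    refine mul_le_mul_of_nonneg_left ?_ (by linarith)
    exact Real.rpow_le_rpow_of_exponent_le (by norm_num) (by linarith)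
  obtain ⟨A₀, hA₀, hLV⟩ := hLV T hT0
  obtain ⟨_, _, hV0⟩ := d_V0 (nrComplexPlaces K) N m C₁ b hm0 hC₁ (by linarith) hbC
  obtain ⟨A₂, hA₂, hV0⟩ := hV0 T' hT'0
  obtain ⟨q₂, hFB⟩ := hFB b T' (by linarith) hT'0
  obtain ⟨y₃, hIN⟩ := hIN b T' (by linarith) hT'0
  obtain ⟨y₄, hLE⟩ := hLE E N m R ε₁ δ T' hE₂ hm0 hR hε₁ hε₁' hδ0 hT'0
  obtain ⟨y₅, hPP⟩ := Pr_posz (F := K) hIE hPNC hNCR E
  obtain ⟨q₆, hq₆2, hlog⟩ := log_cqn hc (nrComplexPlaces K) hn1 (ε / 4) (div_pos hε (by norm_num))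
  obtain ⟨q₇, hq₇⟩ : ∃ q₇ : ℕ, ∀ q : ℕ, q₇ ≤ q →
      max A₀ (max A₂ (Real.exp (3 * R + 3))) ≤ c * (q : ℝ) ^ nrComplexPlaces K := by
    have h1 : Tendsto (fun q : ℕ => c * (q : ℝ) ^ nrComplexPlaces K) atTop atTop :=
      ((tendsto_pow_atTop (by omega)).comp tendsto_natCast_atTop_atTop).const_mul_atTop hc
    exact eventually_atTop.1 (h1.eventually (eventually_ge_atTop _))
  obtain ⟨y₆, hqL⟩ := q_large (F := K) E (max (max q₁ q₂) (max q₆ q₇))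
  refine ⟨max (max y₃ y₄) (max y₅ y₆), fun x q hx hSp => ?_⟩
  have hqq := hqL x q (((le_max_right _ _).trans (le_max_right _ _)).trans hx) hSp
  have hqa : q₁ ≤ q := ((le_max_left _ _).trans (le_max_left _ _)).trans hqq
  have hqb : q₂ ≤ q := ((le_max_right _ _).trans (le_max_left _ _)).trans hqq
  have hqf : q₆ ≤ q := ((le_max_left _ _).trans (le_max_right _ _)).trans hqq
  have hqg : q₇ ≤ q := ((le_max_right _ _).trans (le_max_right _ _)).trans hqq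
  have hq1 : 1 ≤ q := by omega
  replace hLF := hLF q hqa
  replace hFB := hFB q hqb
  replace hIN := hIN x q (((le_max_left _ _).trans (le_max_left _ _)).trans hx) hSp
  replace hLE := hLE x q (((le_max_right _ _).trans (le_max_left _ _)).trans hx) hSp
  obtain ⟨hPf, hPpos⟩ := hPP x q (((le_max_left _ _).trans (le_max_right _ _)).trans hx) hSp
  obtain ⟨hlog1, hlog2⟩ := hlog q hqf
  have hAq := hq₇ q hqg
  obtain ⟨hAeq, hnm⟩ := hcq q hq1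
  obtain ⟨A, hA⟩ : ∃ A : ℝ, A = cB K (qi K q) := ⟨_, rfl⟩
  rw [← hAeq, ← hA] at hAq hlog1 hlog2
  rw [← hA] at hLF ⊢
  have hAA₀ : A₀ ≤ A := (le_max_left _ _).trans hAq
  have hAA₂ : A₂ ≤ A := ((le_max_left _ _).trans (le_max_right _ _)).trans hAq
  have hAe : Real.exp (3 * R + 3) ≤ A := ((le_max_right _ _).trans (le_max_right _ _)).trans hAq
  have hA0 : 0 < A := (Real.exp_pos _).trans_le hAe
  have hlA : 3 * R + 3 ≤ Real.log A := by rw [Real.le_log_iff_exp_le hA0]; exact hAe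
  have hL : Lg K q = 2 * Real.log A := by rw [Lg, hA]
  have hL6 : 5 * R ≤ Lg K q := by rw [hL]; linarith
  have hL0 : 0 < Lg K q := by rw [hL]; linarith
  -- the family
  have : Fintype (Pr K (qi K q)) := hPf.fintype
  have hcard : (Fintype.card (Pr K (qi K q)) : ℝ) = (Pr K (qi K q)).ncard := by
    rw [← Nat.card_coe_set_eq, Nat.card_eq_fintype_card]
  have hn0 : (0 : ℝ) < ((Pr K (qi K q)).ncard : ℝ) := by exact_mod_cast hPpos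
  rw [← hx₀, ← hQ₁] at hLE
  obtain ⟨hfin, hineq⟩ := car_app Pool.Agent.H65.CRG.Base.c_CM hR (by linarith : 4 ≤ b)
    hC₃ hT0 hD0 hQ₁1 hT' hL6 hL0 hFB hIN hLE
  obtain ⟨n, hn⟩ : ∃ n : ℝ, n = ((Pr K (qi K q)).ncard : ℝ) := ⟨_, rfl⟩
  rw [← hn] at hineq hn0 hcard
  obtain ⟨S, hS⟩ : ∃ S : ℝ, S = ∑ i : Pr K (qi K q), zc (fz N m R ε₁ q i.1)
    {ρ : ℂ | 1 / 2 ≤ ρ.re ∧ ρ.re < b ∧ ρ ∈ St T} := ⟨_, rfl⟩
  rw [← hS] at hineq
  obtain ⟨P, hP⟩ : ∃ P : ℝ, P = Ph bs C₂ (Real.log Q₁) (Real.log C₃) T := ⟨_, rfl⟩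
  have hP' : P = Real.log Q₁ / Real.pi + b / D * Real.sinh (Real.pi * (b / D)) *
      Real.log C₃ + (D + 2) * Real.cosh (Real.pi * (b / D)) * (C₂ * (2 : ℝ) ^ (-b)) := by
    rw [hP, Ph, ← hb, ← hD]
  rw [← hP, ← hD] at hPhT
  have hsg : 1 / 2 - sl K R q = R / Lg K q := by rw [sl]; ring
  have hRL : R / Lg K q ≤ 1 / 5 := by
    rw [div_le_iff₀ hL0]; linarith
  have hRL0 : 0 < R / Lg K q := div_pos hR hL0
  have hSle := num_car hD0 (by linarith : 0 ≤ sl K R q) (by linarith : sl K R q ≤ b)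
    (by linarith : 0 ≤ C₂) hC₃ hT0 hn0 hL0 hR hsg hP' hineq
  have hSle2 : S ≤ 2 * Real.log A / (4 * R) *
      (T * (Real.log Q₁ / Real.pi + ε * R / (8 * Real.pi))) * n := by
    refine hSle.trans ?_
    rw [hL]
    refine mul_le_mul_of_nonneg_right ?_ hn0.le
    exact mul_le_mul_of_nonneg_left hPhT (div_nonneg (by linarith) (by linarith))
  -- the single functions
  have hone : ∀ i : Pr K (qi K q),
      (CZ (Zx i.1) (VQ (nrComplexPlaces K) N m A (Zx i.1)) 0 T).Finite ∧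
      (T / Real.pi - C₄) * Real.log A -
        2 * zc (fz N m R ε₁ q i.1)
          {ρ : ℂ | 1 / 2 ≤ ρ.re ∧ ρ.re < b ∧ ρ ∈ St T} ≤
        ((CZ (Zx i.1) (VQ (nrComplexPlaces K) N m A (Zx i.1)) 0 T).ncard : ℝ) := by
    rintro ⟨χ, hχ⟩
    obtain ⟨h1, h2⟩ := hLV A hAA₀ (Zx χ) (hLF χ hχ).2
    refine ⟨h1, le_trans ?_ h2⟩
    have e1 : ((b : ℂ) + (0 : ℝ) * I).re = b := by simp
    have e2 : ((b : ℂ) + (0 : ℝ) * I).im = 0 := by simp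
    have h3 := one_chi Pool.Agent.H65.CRG.Base.c_ZM hA (by linarith : 1 < b)
      (by linarith : b₁ ≤ b) hD0 hT0 hT' χ
      (fun s h3 h4 h5 => (hV0 A hAA₂ (Zx χ) (hLF χ hχ).2 s h3 h4 h5).1)
      ((hFB χ hχ ((b : ℂ) + (0 : ℝ) * I) (by rw [e1]; linarith) (by rw [e1]; linarith)
        (by rw [e2, abs_zero]; exact hT'0)).2.2 e1).1 (hfin χ hχ)
    show (T / Real.pi - C₄) * Real.log A -
        2 * zc (fz N m R ε₁ q χ)
          {ρ : ℂ | 1 / 2 ≤ ρ.re ∧ ρ.re < b ∧ ρ ∈ St T} ≤ _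
    linarith
  have hsum : n * ((T / Real.pi - C₄) * Real.log A) - 2 * S ≤
      ∑ i : Pr K (qi K q),
        ((CZ (Zx i.1) (VQ (nrComplexPlaces K) N m A (Zx i.1)) 0 T).ncard : ℝ) := by
    have h1 := Finset.sum_le_sum fun (i : Pr K (qi K q)) (_ : i ∈ Finset.univ) => (hone i).2
    rw [Finset.sum_sub_distrib, Finset.sum_const, Finset.card_univ, ← Finset.mul_sum, ← hS,
      nsmul_eq_mul, hcard] at h1
    exact h1
  have hlq : 0 ≤ Real.log q := Real.log_nonneg (by exact_mod_cast hq1)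
  refine ⟨fun χ hχ => (hone ⟨χ, hχ⟩).1, ?_⟩
  rw [fsum_coe, ← hn]
  rcases le_or_gt κ ε₀ with hle | hgt
  · have h1 : (κ - ε₀) * (T / Real.pi * (nrComplexPlaces K * Real.log q)) * n ≤ 0 := by
      have h2 : 0 ≤ T / Real.pi * (nrComplexPlaces K * Real.log q) := by positivity
      have h3 : (κ - ε₀) * (T / Real.pi * (nrComplexPlaces K * Real.log q)) ≤ 0 :=
        mul_nonpos_of_nonpos_of_nonneg (by linarith) h2
      exact mul_nonpos_of_nonpos_of_nonneg h3 hn0.le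
    refine h1.trans (Finset.sum_nonneg fun i _ => Nat.cast_nonneg _)
  · refine le_trans ?_ hsum
    exact num_simple hT0 hε hε1 hεε (by linarith) (by positivity) hn0 hR hgt.le hκ1 hTC₄ hlog1
      hlQ hSle2

end Pool.Agent.H25.SM
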