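import Pool.Agent.H20.SM.Targets

/-!
# PNC: almost all characters are primitive (MP_347b49_nt)
-/

set_option autoImplicit false

open NumberField NumberField.InfinitePlace Complex Filter Topology

namespace Pool.Agent.H25.SM

open Pool.Agent.H28.RC Pool.Agent.H25.HK Pool.Agent.H37.CV Pool.Agent.H20.SM

theorem finsum_one_ncard {α : Type*} (s : Set α) : ∑ᶠ _a ∈ s, (1 : ℂ) = (s.ncard : ℂ) := by
  by_cases hs : s.Finite
  · rw [finsum_mem_eq_finite_toFinset_sum _ hs, Finset.sum_const, nsmul_eq_mul, mul_one,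
      Set.ncard_eq_toFinset_card s hs]
  · rw [Set.Infinite.ncard hs]
    rw [finsum_mem_eq_zero_of_infinite]
    · simp
    · have : s ∩ Function.support (fun _ : α => (1 : ℂ)) = s := by
        ext a
        simp
      rw [this]
      exact hs

theorem pnc_card (hIEq : T_IEq) (F : Type) [Field F] [NumberField F] [IsTotallyComplex F]
    [IsGalois ℚ F] (q : ℕ) (hq : Sq F q) {C x : ℝ} (hC : 0 ≤ C)
    (hn : ∀ d : Ideal (𝓞 F), qi F q ≤ d →
      (nc (qi F q) d : ℝ) * pd q d ≤ C * nc (qi F q) (qi F q))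
    (hS : ∑ S ∈ q.primeFactors.powerset.erase ∅, (2 : ℝ) ^ (Module.finrank ℚ F * S.card) *
      (∏ p ∈ S, (p : ℝ)) ^ (-(3 / 4) : ℝ) ≤ x) :
    |((Pr F (qi F q)).ncard : ℝ) - nc (qi F q) (qi F q)| ≤ C * x * nc (qi F q) (qi F q) := by
  classical
  obtain ⟨-, T, σ, hT, hσ, hTd, hR, hsum⟩ := hIEq F q hq
  have h1 := hsum (fun _ => 1)
  rw [finsum_one_ncard] at h1
  simp only [finsum_one_ncard] at h1
  have h2 : ((Pr F (qi F q)).ncard : ℝ) = ∑ d ∈ T, (σ d : ℝ) * nc (qi F q) d := by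
    have h3 : (((Pr F (qi F q)).ncard : ℝ) : ℂ) =
        ((∑ d ∈ T, (σ d : ℝ) * nc (qi F q) d : ℝ) : ℂ) := by
      push_cast
      exact h1
    exact_mod_cast h3
  rw [← Finset.add_sum_erase T _ hT, hσ] at h2
  have h3 : ((Pr F (qi F q)).ncard : ℝ) - nc (qi F q) (qi F q) =
      ∑ d ∈ T.erase (qi F q), (σ d : ℝ) * nc (qi F q) d := by
    rw [h2]
    push_cast
    ring
  rw [h3]
  have hN0 : (0 : ℝ) ≤ nc (qi F q) (qi F q) := Nat.cast_nonneg _
  have hpp : ∀ R : Finset ℕ, R ⊆ q.primeFactors → 1 ≤ ∏ p ∈ R, (p : ℝ) := by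
    intro R hRs
    refine Finset.prod_induction (fun p : ℕ => (p : ℝ)) (fun r : ℝ => 1 ≤ r)
      (fun a b ha hb => one_le_mul_of_one_le_of_one_le ha hb) le_rfl (fun p hp => ?_)
    exact_mod_cast (Nat.prime_of_mem_primeFactors (hRs hp)).one_lt.le
  have hPs : ∀ d : Ideal (𝓞 F), Pd q d ⊆ q.primeFactors := fun d => by
    unfold Pd
    exact Finset.filter_subset _ _
  -- each term
  have h4 : ∀ d ∈ T.erase (qi F q), |(σ d : ℝ) * nc (qi F q) d| ≤
      C * nc (qi F q) (qi F q) * (pd q d) ^ (-(3 / 4) : ℝ) := by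
    intro d hd
    have hdT := Finset.mem_of_mem_erase hd
    obtain ⟨hle, hσd, -⟩ := hTd d hdT
    have e1 : 1 ≤ pd q d := hpp _ (hPs d)
    have e2 := hn d hle
    have e3 : |(σ d : ℝ)| ≤ 1 := by exact_mod_cast hσd
    rw [abs_mul, Nat.abs_cast]
    have e4 : (nc (qi F q) d : ℝ) ≤ C * nc (qi F q) (qi F q) * (pd q d)⁻¹ := by
      rw [← div_eq_mul_inv, le_div_iff₀ (by linarith)]
      exact e2
    have e5 : (pd q d)⁻¹ ≤ (pd q d) ^ (-(3 / 4) : ℝ) := by
      rw [← Real.rpow_neg_one]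
      exact Real.rpow_le_rpow_of_exponent_le e1 (by norm_num)
    calc |(σ d : ℝ)| * (nc (qi F q) d : ℝ) ≤ 1 * (nc (qi F q) d : ℝ) :=
          mul_le_mul_of_nonneg_right e3 (Nat.cast_nonneg _)
      _ = (nc (qi F q) d : ℝ) := one_mul _
      _ ≤ C * nc (qi F q) (qi F q) * (pd q d)⁻¹ := e4
      _ ≤ _ := mul_le_mul_of_nonneg_left e5 (by positivity)
  refine (Finset.abs_sum_le_sum_abs _ _).trans ((Finset.sum_le_sum h4).trans ?_)
  rw [← Finset.mul_sum]
  have h5 : ∑ d ∈ T.erase (qi F q), (pd q d) ^ (-(3 / 4) : ℝ) ≤ x := by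
    refine le_trans ?_ hS
    have h6 : ∀ d ∈ T.erase (qi F q), Pd q d ∈ q.primeFactors.powerset.erase ∅ := by
      intro d hd
      obtain ⟨hne, hdT⟩ := Finset.mem_erase.1 hd
      exact Finset.mem_erase.2 ⟨((hTd d hdT).2.2 hne).ne_empty,
        Finset.mem_powerset.2 (hPs d)⟩
    rw [← Finset.sum_fiberwise_of_maps_to h6]
    refine Finset.sum_le_sum fun R hR' => ?_
    have e1 : ∀ d ∈ (T.erase (qi F q)).filter (fun d => Pd q d = R),
        (pd q d) ^ (-(3 / 4) : ℝ) = (∏ p ∈ R, (p : ℝ)) ^ (-(3 / 4) : ℝ) := by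
      intro d hd
      unfold pd
      rw [(Finset.mem_filter.1 hd).2]
    rw [Finset.sum_congr rfl e1, Finset.sum_const, nsmul_eq_mul]
    have e2 : (((T.erase (qi F q)).filter (fun d => Pd q d = R)).card : ℝ) ≤
        (2 : ℝ) ^ (Module.finrank ℚ F * R.card) := by
      have e3 : ((T.erase (qi F q)).filter (fun d => Pd q d = R)).card ≤
          2 ^ (Module.finrank ℚ F * R.card) :=
        (Finset.card_le_card (Finset.filter_subset_filter _ (Finset.erase_subset _ _))).trans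
          (hR R)
      exact_mod_cast e3
    have e4 : 0 ≤ (∏ p ∈ R, (p : ℝ)) ^ (-(3 / 4) : ℝ) := by positivity
    exact mul_le_mul_of_nonneg_right e2 e4
  calc C * nc (qi F q) (qi F q) * ∑ d ∈ T.erase (qi F q), (pd q d) ^ (-(3 / 4) : ℝ) ≤
        C * nc (qi F q) (qi F q) * x := mul_le_mul_of_nonneg_left h5 (by positivity)
    _ = _ := by ring

theorem pf_PNC (hIEq : T_IEq) (hNCR : T_NCR) (hSND : T_SND) : T_PNC := by
  intro F _ _ _ _ A ε hε
  obtain ⟨C, E, hC, -, hN⟩ := hNCR F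
  obtain ⟨x₁, h1⟩ := hN A
  obtain ⟨x₂, h2⟩ := hSND (Module.finrank ℚ F) A
  refine ⟨max (max x₁ x₂) (max 1 ((C / ε) ^ (4 : ℕ))), fun x q hx hq => ?_⟩
  have hx1 : x₁ ≤ x := ((le_max_left _ _).trans (le_max_left _ _)).trans hx
  have hx2 : x₂ ≤ x := ((le_max_right _ _).trans (le_max_left _ _)).trans hx
  have hx3 : 1 ≤ x := ((le_max_left _ _).trans (le_max_right _ _)).trans hx
  have hx4 : (C / ε) ^ (4 : ℕ) ≤ x := ((le_max_right _ _).trans (le_max_right _ _)).trans hx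
  obtain ⟨hpos, -, hn⟩ := h1 x q hx1 hq
  have hS := h2 x q.primeFactors hx2 (fun p hp => hq.low p hp) hq.hi
  have hk := pnc_card hIEq F q hq.sq (C := C) (by linarith) (fun d hd => (hn d hd).2.2) hS
  have hCε : C * x ^ (-(1 / 4) : ℝ) ≤ ε := by
    have hx0 : 0 < x := by linarith
    have e1 : C / ε ≤ x ^ (1 / 4 : ℝ) := by
      have e2 : ((C / ε) ^ (4 : ℕ)) ^ (1 / 4 : ℝ) = C / ε := by
        rw [← Real.rpow_natCast, ← Real.rpow_mul (by positivity)]
        norm_num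
      rw [← e2]
      exact Real.rpow_le_rpow (by positivity) hx4 (by norm_num)
    have e3 : 0 < x ^ (1 / 4 : ℝ) := Real.rpow_pos_of_pos hx0 _
    rw [Real.rpow_neg hx0.le, ← div_eq_mul_inv, div_le_iff₀ e3]
    rw [div_le_iff₀ hε] at e1
    linarith
  have hN0 : (0 : ℝ) ≤ nc (qi F q) (qi F q) := Nat.cast_nonneg _
  have hk2 : |((Pr F (qi F q)).ncard : ℝ) - nc (qi F q) (qi F q)| ≤
      ε * nc (qi F q) (qi F q) := hk.trans (mul_le_mul_of_nonneg_right hCε hN0)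
  obtain ⟨a1, a2⟩ := abs_le.1 hk2
  constructor <;> linarith

end Pool.Agent.H25.SM
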