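import Pool.Agent.H20.SM.TP
import Pool.Agent.H11.BV.RP
import Pool.Agent.H11.BV.DV
import Mathlib.NumberTheory.LSeries.Injectivity

/-!
# RPF: the product of four real functions is at least one (MP_347b49_nt)
-/

set_option autoImplicit false

open NumberField NumberField.InfinitePlace Complex Filter Topology
open scoped ComplexConjugate

namespace Pool.Agent.H25.SM

open Pool.Agent.H28.RC Pool.Agent.H25.HK Pool.Agent.H37.CV Pool.Agent.H20.SM
open Pool.Agent.H30.BV (cv DS TX wx WX NX)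
open Pool.Agent.H11.BV (rp_prod rp_val dv_zero dv_one)

/-- the derivative of `log |f|` -/
theorem log_norm_deriv {f : ℝ → ℂ} {f' : ℂ} {t : ℝ} (h : HasDerivAt f f' t) (h0 : f t ≠ 0) :
    HasDerivAt (fun t => Real.log ‖f t‖) (f' / f t).re t := by
  have hre : HasDerivAt (fun t => (f t).re) f'.re t :=
    (Complex.reCLM.hasFDerivAt (x := f t)).comp_hasDerivAt t h
  have him : HasDerivAt (fun t => (f t).im) f'.im t :=
    (Complex.imCLM.hasFDerivAt (x := f t)).comp_hasDerivAt t h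
  have hn : Complex.normSq (f t) ≠ 0 := fun h1 => h0 (Complex.normSq_eq_zero.1 h1)
  have h1 : HasDerivAt (fun t => (f t).re * (f t).re + (f t).im * (f t).im)
      ((f'.re * (f t).re + (f t).re * f'.re) + (f'.im * (f t).im + (f t).im * f'.im)) t :=
    (hre.mul hre).add (him.mul him)
  have h2 := (h1.log (by rw [← Complex.normSq_apply]; exact hn)).div_const 2
  have e1 : (fun t => Real.log ‖f t‖) =
      fun t => Real.log ((f t).re * (f t).re + (f t).im * (f t).im) / 2 := by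
    funext u
    rw [← Complex.normSq_apply, Complex.normSq_eq_norm_sq, Real.log_pow]
    push_cast
    ring
  rw [e1]
  refine h2.congr_deriv ?_
  rw [Complex.div_re, Complex.normSq_apply]
  rw [Complex.normSq_apply] at hn
  field_simp
  ring

section

variable {F : Type} [Field F] [NumberField F]

theorem rpf_absc (hCFF : T_CFF) {r : ℕ} (hr : 1 ≤ r) (χ : DirichletCharacter ℂ r) :
    LSeries.abscissaOfAbsConv (ac F χ) ≤ (1 : ℝ) := by
  refine LSeries.abscissaOfAbsConv_le_of_forall_lt_LSeriesSummable fun y hy => ?_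
  have h := (((hCFF F).2.2 r χ y hr (by simpa using hy)).1 0).1
  have e : (fun n => ac F χ n * ((Real.log n ^ 0 : ℝ) : ℂ)) = ac F χ := by
    funext n
    simp
  rwa [e] at h

theorem rpf_deriv (hCFF : T_CFF) {r : ℕ} (hr : 1 ≤ r) (χ : DirichletCharacter ℂ r) {t : ℝ}
    (ht : 1 < t) : HasDerivAt (fun t : ℝ => Real.log ‖DS (ac F χ) 0 (t : ℂ)‖)
      (-(DS (fun n => (ArithmeticFunction.vonMangoldt n : ℂ) * gc F χ n) 0 (t : ℂ)).re) t := by
  have h1 : HasDerivAt (DS (ac F χ) 0) (-DS (ac F χ) 1 (t : ℂ)) (t : ℂ) := by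
    rw [dv_zero, dv_one]
    refine LSeries_hasDerivAt ?_
    refine lt_of_le_of_lt (rpf_absc hCFF hr χ) ?_
    rw [Complex.ofReal_re]
    exact_mod_cast ht
  obtain ⟨-, h0, h2⟩ := (hCFF F).2.2 r χ (t : ℂ) hr (by simpa using ht)
  have h3 := log_norm_deriv h1.comp_ofReal h0
  refine h3.congr_deriv ?_
  rw [h2, neg_div, mul_div_cancel_left₀ _ h0, Complex.neg_re]

theorem rpf_aF1 : aF F 1 = 1 := by
  unfold aF
  have : {I : Ideal (𝓞 F) | Ideal.absNorm I = 1} = {⊤} := by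
    ext I
    simp [Ideal.absNorm_eq_one_iff]
  rw [this, Set.ncard_singleton]
  simp

theorem rpf_lim (hCFF : T_CFF) {r : ℕ} (hr : 1 ≤ r) (χ : DirichletCharacter ℂ r) :
    Tendsto (fun t : ℝ => Real.log ‖DS (ac F χ) 0 (t : ℂ)‖) atTop (𝓝 0) := by
  have h1 : LSeries.abscissaOfAbsConv (ac F χ) < ⊤ :=
    lt_of_le_of_lt (rpf_absc hCFF hr χ) (EReal.coe_lt_top 1)
  have h2 := LSeries.tendsto_atTop h1
  have h3 : ac F χ 1 = 1 := by
    unfold ac
    rw [rpf_aF1]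
    unfold Pool.Agent.H30.BV.cv
    simp
  rw [h3] at h2
  have h4 := h2.norm
  rw [norm_one] at h4
  have h5 := h4.log one_ne_zero
  rw [Real.log_one] at h5
  rw [dv_zero]
  exact h5

/-- the term of the logarithmic derivative -/
theorem rpf_term {r : ℕ} (χ : DirichletCharacter ℂ r) (t : ℝ) (n : ℕ) :
    LSeries.term (fun n => ((ArithmeticFunction.vonMangoldt n : ℂ) * gc F χ n) *
      ((Real.log n ^ 0 : ℝ) : ℂ)) (t : ℂ) n =
    ((ArithmeticFunction.vonMangoldt n * gF F n * (n : ℝ) ^ (-t) : ℝ) : ℂ) * cv χ n := by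
  rcases eq_or_ne n 0 with rfl | hn
  · simp
  · rw [LSeries.term_of_ne_zero hn]
    have h0 : (0 : ℝ) ≤ n := Nat.cast_nonneg n
    have h1 : (n : ℂ) ^ (t : ℂ) = (((n : ℝ) ^ t : ℝ) : ℂ) := by
      rw [Complex.ofReal_cpow h0]
      push_cast
      rfl
    rw [h1, Real.rpow_neg h0]
    unfold gc
    push_cast
    rw [pow_zero, mul_one]
    ring

theorem rpf_sum (hCFF : T_CFF) {q₁ q₂ : ℕ} (hq₁ : 1 ≤ q₁) (hq₂ : 1 ≤ q₂)
    (χ₁ : DirichletCharacter ℂ q₁) (χ₂ : DirichletCharacter ℂ q₂) (h1 : χ₁ ^ 2 = 1)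
    (h2 : χ₂ ^ 2 = 1) (Ψ : DirichletCharacter ℂ (q₁ * q₂))
    (hΨ : ∀ n : ℕ, Ψ (n : ZMod (q₁ * q₂)) = cv χ₁ n * cv χ₂ n) {t : ℝ} (ht : 1 < t) :
    0 ≤ (DS (fun n => (ArithmeticFunction.vonMangoldt n : ℂ) *
          gc F (1 : DirichletCharacter ℂ 1) n) 0 (t : ℂ)).re +
      (DS (fun n => (ArithmeticFunction.vonMangoldt n : ℂ) * gc F χ₁ n) 0 (t : ℂ)).re +
      (DS (fun n => (ArithmeticFunction.vonMangoldt n : ℂ) * gc F χ₂ n) 0 (t : ℂ)).re +
      (DS (fun n => (ArithmeticFunction.vonMangoldt n : ℂ) * gc F Ψ n) 0 (t : ℂ)).re := by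
  have ht' : 1 < ((t : ℝ) : ℂ).re := by simpa using ht
  have hs : ∀ {r : ℕ} (_ : 1 ≤ r) (χ : DirichletCharacter ℂ r), Summable fun n : ℕ =>
      ((ArithmeticFunction.vonMangoldt n * gF F n * (n : ℝ) ^ (-t) : ℝ) : ℂ) * cv χ n := by
    intro r hr χ
    have h := (((hCFF F).2.2 r χ (t : ℂ) hr ht').1 0).2
    exact h.congr fun n => rpf_term χ t n
  have hv : ∀ {r : ℕ} (χ : DirichletCharacter ℂ r),
      DS (fun n => (ArithmeticFunction.vonMangoldt n : ℂ) * gc F χ n) 0 (t : ℂ) =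
        ∑' n : ℕ, ((ArithmeticFunction.vonMangoldt n * gF F n * (n : ℝ) ^ (-t) : ℝ) : ℂ) *
          cv χ n := by
    intro r χ
    unfold Pool.Agent.H30.BV.DS LSeries
    exact tsum_congr fun n => rpf_term χ t n
  have hΨ1 : 1 ≤ q₁ * q₂ := Nat.mul_pos hq₁ hq₂
  rw [hv, hv, hv, hv, ← Complex.add_re, ← Complex.add_re, ← Complex.add_re,
    ← (hs le_rfl (1 : DirichletCharacter ℂ 1)).tsum_add (hs hq₁ χ₁),
    ← ((hs le_rfl (1 : DirichletCharacter ℂ 1)).add (hs hq₁ χ₁)).tsum_add (hs hq₂ χ₂),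
    ← (((hs le_rfl (1 : DirichletCharacter ℂ 1)).add (hs hq₁ χ₁)).add (hs hq₂ χ₂)).tsum_add
      (hs hΨ1 Ψ),
    Complex.re_tsum ((((hs le_rfl (1 : DirichletCharacter ℂ 1)).add (hs hq₁ χ₁)).add
      (hs hq₂ χ₂)).add (hs hΨ1 Ψ))]
  refine tsum_nonneg fun n => ?_
  have hw : 0 ≤ ArithmeticFunction.vonMangoldt n * gF F n * (n : ℝ) ^ (-t) :=
    mul_nonneg (mul_nonneg ArithmeticFunction.vonMangoldt_nonneg ((hCFF F).1 n).1)
      (Real.rpow_nonneg (Nat.cast_nonneg n) _)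
  have e1 : cv (1 : DirichletCharacter ℂ 1) n = 1 := by
    unfold Pool.Agent.H30.BV.cv
    rw [MulChar.one_apply (isUnit_of_subsingleton _)]
  have e2 : cv Ψ n = cv χ₁ n * cv χ₂ n := hΨ n
  rw [e1, e2, ← mul_add, ← mul_add, ← mul_add, Complex.re_ofReal_mul]
  refine mul_nonneg hw ?_
  rcases rp_val χ₁ h1 n with ha | ha | ha <;> rcases rp_val χ₂ h2 n with hb | hb | hb <;>
    rw [ha, hb] <;> norm_num

end

theorem pf_RPF (hCFF : T_CFF) : T_RPF := by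
  intro F _ _ _ q₁ q₂ χ₁ χ₂ x hq₁ hq₂ h1 h2 hx hx1
  obtain ⟨Ψ, hΨ⟩ := rp_prod χ₁ χ₂
  have hΨ1 : 1 ≤ q₁ * q₂ := Nat.mul_pos hq₁ hq₂
  have e0 : (fun n => (aF F n : ℂ)) = ac F (1 : DirichletCharacter ℂ 1) := by
    funext n
    unfold ac Pool.Agent.H30.BV.cv
    rw [MulChar.one_apply (isUnit_of_subsingleton _), mul_one]
  have e3 : (fun n => (aF F n : ℂ) * (cv χ₁ n * cv χ₂ n)) = ac F Ψ := by
    funext n
    unfold ac
    rw [← hΨ n]
    rfl
  have e4 : (1 + (x : ℂ)) = ((1 + x : ℝ) : ℂ) := by push_cast; ring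
  rw [e0, e3, e4]
  obtain ⟨G, hG⟩ : ∃ G : ℝ → ℝ, ∀ t, G t =
      Real.log ‖DS (ac F (1 : DirichletCharacter ℂ 1)) 0 (t : ℂ)‖ +
      Real.log ‖DS (ac F χ₁) 0 (t : ℂ)‖ + Real.log ‖DS (ac F χ₂) 0 (t : ℂ)‖ +
      Real.log ‖DS (ac F Ψ) 0 (t : ℂ)‖ := ⟨_, fun _ => rfl⟩
  have hGe : G = fun t : ℝ => Real.log ‖DS (ac F (1 : DirichletCharacter ℂ 1)) 0 (t : ℂ)‖ +
      Real.log ‖DS (ac F χ₁) 0 (t : ℂ)‖ + Real.log ‖DS (ac F χ₂) 0 (t : ℂ)‖ +
      Real.log ‖DS (ac F Ψ) 0 (t : ℂ)‖ := funext hG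
  have hd : ∀ t : ℝ, 1 < t → ∃ D : ℝ, D ≤ 0 ∧ HasDerivAt G D t := by
    intro t ht
    have h4 := (((rpf_deriv (F := F) hCFF le_rfl (1 : DirichletCharacter ℂ 1) ht).add
        (rpf_deriv (F := F) hCFF hq₁ χ₁ ht)).add (rpf_deriv (F := F) hCFF hq₂ χ₂ ht)).add
          (rpf_deriv (F := F) hCFF hΨ1 Ψ ht)
    rw [hGe]
    refine ⟨_, ?_, h4⟩
    have h3 := rpf_sum (F := F) hCFF hq₁ hq₂ χ₁ χ₂ h1 h2 Ψ hΨ ht
    linarith
  have hanti : AntitoneOn G (Set.Ioi 1) := by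
    refine antitoneOn_of_deriv_nonpos (convex_Ioi 1) ?_ ?_ ?_
    · intro t ht
      obtain ⟨D, -, h⟩ := hd t ht
      exact h.continuousAt.continuousWithinAt
    · rw [interior_Ioi]
      intro t ht
      obtain ⟨D, -, h⟩ := hd t ht
      exact h.differentiableAt.differentiableWithinAt
    · rw [interior_Ioi]
      intro t ht
      obtain ⟨D, hD, h⟩ := hd t ht
      rw [h.deriv]
      exact hD
  have hlim : Tendsto G atTop (𝓝 0) := by
    have h3 := (((rpf_lim (F := F) hCFF le_rfl (1 : DirichletCharacter ℂ 1)).add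
      (rpf_lim (F := F) hCFF hq₁ χ₁)).add (rpf_lim (F := F) hCFF hq₂ χ₂)).add
        (rpf_lim (F := F) hCFF hΨ1 Ψ)
    rw [hGe]
    simpa using h3
  have hG0 : 0 ≤ G (1 + x) := by
    refine le_of_tendsto hlim ?_
    filter_upwards [eventually_ge_atTop (1 + x)] with t ht
    exact hanti (Set.mem_Ioi.2 (by linarith)) (Set.mem_Ioi.2 (by linarith)) ht
  have hp : ∀ {r : ℕ} (_ : 1 ≤ r) (χ : DirichletCharacter ℂ r),
      0 < ‖DS (ac F χ) 0 ((1 + x : ℝ) : ℂ)‖ := by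
    intro r hr χ
    exact norm_pos_iff.2 ((hCFF F).2.2 r χ ((1 + x : ℝ) : ℂ) hr
      (by rw [Complex.ofReal_re]; linarith)).2.1
  have p0 := hp le_rfl (1 : DirichletCharacter ℂ 1)
  have p1 := hp hq₁ χ₁
  have p2 := hp hq₂ χ₂
  have p3 := hp hΨ1 Ψ
  rw [hG, ← Real.log_mul p0.ne' p1.ne', ← Real.log_mul (mul_pos p0 p1).ne' p2.ne',
    ← Real.log_mul (mul_pos (mul_pos p0 p1) p2).ne' p3.ne'] at hG0
  by_contra hc
  exact absurd hG0 (not_le.2 (Real.log_neg (mul_pos (mul_pos (mul_pos p0 p1) p2) p3)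
    (not_le.1 hc)))

end Pool.Agent.H25.SM
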