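import Pool.Agent.H20.SM.TW
import Pool.Agent.H19.SM.Bz

/-!
# A cofinal family of Galois extensions: the mean square on a small circle (row UBw)
-/

set_option autoImplicit false

open NumberField NumberField.InfinitePlace Complex Filter Topology MeasureTheory

namespace Pool.Agent.H25.SM

open Pool.Agent.H28.RC Pool.Agent.H25.HK Pool.Agent.H37.CV
open Pool.Agent.H65.CRZ Pool.Agent.H65.CRG Pool.Agent.H20.SM

/-- the bound of the quadratic form -/
lemma FFw_le (a b w : ℂ) (γ l : ℝ) (hγ : 0 ≤ γ) (hl : 0 ≤ l) (hw : w - a - b = -(2 * γ : ℝ)) :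
    ‖FFw a b w l‖ ≤ (1 + ‖a‖ * l) * (1 + ‖b‖ * l) * l := by
  unfold FFw
  have h1 : ∀ v ∈ Set.uIoc 0 l, ‖cexp ((w - a - b) * v) *
      ((1 + a * ((l - v : ℝ) : ℂ)) * (1 + b * ((l - v : ℝ) : ℂ)))‖ ≤
        (1 + ‖a‖ * l) * (1 + ‖b‖ * l) := by
    intro v hv
    rw [Set.uIoc_of_le hl] at hv
    have h0 : 0 ≤ l - v := by linarith [hv.2]
    have h0' : l - v ≤ l := by linarith [hv.1]
    have h2 : ‖cexp ((w - a - b) * v)‖ ≤ 1 := by
      rw [hw, Complex.norm_exp, Real.exp_le_one_iff]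
      have : (-((2 * γ : ℝ) : ℂ) * (v : ℂ)).re = -(2 * γ * v) := by
        rw [← Complex.ofReal_neg, ← Complex.ofReal_mul, Complex.ofReal_re]
        ring
      rw [this]
      nlinarith [mul_nonneg hγ hv.1.le]
    have h3 : ∀ z : ℂ, ‖1 + z * ((l - v : ℝ) : ℂ)‖ ≤ 1 + ‖z‖ * l := by
      intro z
      refine (norm_add_le _ _).trans ?_
      rw [norm_one, norm_mul, Complex.norm_real, Real.norm_eq_abs, abs_of_nonneg h0]
      have := mul_le_mul_of_nonneg_left h0' (norm_nonneg z)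
      linarith
    rw [norm_mul, norm_mul]
    have h4 : ‖1 + a * ((l - v : ℝ) : ℂ)‖ * ‖1 + b * ((l - v : ℝ) : ℂ)‖ ≤
        (1 + ‖a‖ * l) * (1 + ‖b‖ * l) :=
      mul_le_mul (h3 a) (h3 b) (norm_nonneg _) (by positivity)
    calc _ ≤ 1 * ((1 + ‖a‖ * l) * (1 + ‖b‖ * l)) :=
          mul_le_mul h2 h4 (by positivity) zero_le_one
      _ = _ := one_mul _
  have h2 := intervalIntegral.norm_integral_le_of_norm_le_const h1
  rwa [sub_zero, abs_of_nonneg hl] at h2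

/-- the bound of the main term -/
lemma Bmw_le (α β : ℂ) (g R L l : ℝ) (hg : 0 < g) (hl : 0 < l) (hL : 0 ≤ L) (hgL : g * L = R)
    (hα : ‖α‖ ≤ 5 * g) (hβ : ‖β‖ ≤ 5 * g) (hαβ : g ≤ ‖α + β‖) (h1 : R / 5 ≤ g * l)
    (h2 : g * l ≤ R / 3) (hR : 1 ≤ R) :
    ‖Bmw α β g L l‖ ≤ 5 * (1 + 2 * R) ^ 2 * (1 + Real.exp (10 * R)) := by
  have hgn : ‖(g : ℂ)‖ = g := by rw [Complex.norm_real, Real.norm_eq_abs, abs_of_pos hg]
  have hF : ∀ a b w : ℂ, ‖a‖ ≤ 6 * g → ‖b‖ ≤ 6 * g → w - a - b = -(2 * g : ℝ) →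
      ‖FFw a b w l‖ ≤ (1 + 2 * R) ^ 2 * l := by
    intro a b w ha hb hw
    refine (FFw_le a b w g l hg.le hl.le hw).trans ?_
    have h3 : 1 + ‖a‖ * l ≤ 1 + 2 * R := by
      have := mul_le_mul_of_nonneg_right ha hl.le
      linarith
    have h4 : 1 + ‖b‖ * l ≤ 1 + 2 * R := by
      have := mul_le_mul_of_nonneg_right hb hl.le
      linarith
    rw [sq]
    refine mul_le_mul_of_nonneg_right ?_ hl.le
    exact mul_le_mul h3 h4 (by positivity) (by linarith)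
  have hA : ‖FFw (α + g) (β + g) (α + β) l‖ ≤ (1 + 2 * R) ^ 2 * l := by
    refine hF _ _ _ ?_ ?_ ?_
    · refine (norm_add_le _ _).trans ?_
      rw [hgn]; linarith
    · refine (norm_add_le _ _).trans ?_
      rw [hgn]; linarith
    · push_cast; ring
  have hB : ‖FFw (-β + g) (-α + g) (-(α + β)) l‖ ≤ (1 + 2 * R) ^ 2 * l := by
    refine hF _ _ _ ?_ ?_ ?_
    · refine (norm_add_le _ _).trans ?_
      rw [hgn, norm_neg]; linarith
    · refine (norm_add_le _ _).trans ?_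
      rw [hgn, norm_neg]; linarith
    · push_cast; ring
  have hE : ‖cexp (-(α + β) * L)‖ ≤ Real.exp (10 * R) := by
    rw [Complex.norm_exp, Real.exp_le_exp]
    have e1 : (-(α + β) * (L : ℂ)).re = -(α + β).re * L := by
      rw [Complex.mul_re, Complex.ofReal_re, Complex.ofReal_im, Complex.neg_re]
      ring
    rw [e1]
    have e2 : -(α + β).re ≤ 10 * g := by
      have e3 := Complex.abs_re_le_norm (α + β)
      have e4 := norm_add_le α β
      have e5 := neg_abs_le (α + β).re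
      linarith
    calc -(α + β).re * L ≤ 10 * g * L := mul_le_mul_of_nonneg_right e2 hL
      _ = 10 * R := by rw [← hgL]; ring
  unfold Bmw
  rw [norm_mul]
  have h3 : ‖(1 : ℂ) / ((α + β) * (l : ℂ) ^ 2)‖ ≤ 1 / (g * l ^ 2) := by
    rw [norm_div, norm_one, norm_mul, norm_pow, Complex.norm_real, Real.norm_eq_abs,
      abs_of_pos hl]
    exact one_div_le_one_div_of_le (by positivity)
      (mul_le_mul_of_nonneg_right hαβ (by positivity))
  have h4 : ‖FFw (α + g) (β + g) (α + β) l -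
      cexp (-(α + β) * L) * FFw (-β + g) (-α + g) (-(α + β)) l‖ ≤
        (1 + 2 * R) ^ 2 * l * (1 + Real.exp (10 * R)) := by
    refine (norm_sub_le _ _).trans ?_
    rw [norm_mul]
    have h5 : ‖cexp (-(α + β) * L)‖ * ‖FFw (-β + g) (-α + g) (-(α + β)) l‖ ≤
        Real.exp (10 * R) * ((1 + 2 * R) ^ 2 * l) :=
      mul_le_mul hE hB (norm_nonneg _) (Real.exp_pos _).le
    calc _ ≤ (1 + 2 * R) ^ 2 * l + Real.exp (10 * R) * ((1 + 2 * R) ^ 2 * l) :=
          add_le_add hA h5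
      _ = _ := by ring
  have h5 : 1 / (g * l) ≤ 5 / R := by
    rw [div_le_div_iff₀ (by positivity) (by positivity)]
    linarith
  have h6 : 5 / R ≤ 5 := div_le_self (by norm_num) hR
  have h7 : 0 ≤ (1 + 2 * R) ^ 2 * (1 + Real.exp (10 * R)) := by
    have := Real.exp_pos (10 * R)
    positivity
  calc _ ≤ 1 / (g * l ^ 2) * ((1 + 2 * R) ^ 2 * l * (1 + Real.exp (10 * R))) :=
        mul_le_mul h3 h4 (norm_nonneg _) (by positivity)
    _ = 1 / (g * l) * ((1 + 2 * R) ^ 2 * (1 + Real.exp (10 * R))) := by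
        field_simp
    _ ≤ 5 * ((1 + 2 * R) ^ 2 * (1 + Real.exp (10 * R))) :=
        mul_le_mul_of_nonneg_right (h5.trans h6) h7
    _ = _ := by ring

/-- the parameters -/
lemma UBw_par (r : ℕ) (hr : 1 ≤ r) (c : ℝ) (hc : 0 < c) : ∃ q₀ : ℕ, ∀ q : ℕ, q₀ ≤ q →
    0 < Real.log q ∧ 9 / 5 * (r * Real.log q) ≤ 2 * Real.log (c * (q : ℝ) ^ r) ∧
      2 * Real.log (c * (q : ℝ) ^ r) ≤ 5 / 2 * (r * Real.log q) ∧
      Real.log (((q : ℝ) ^ (2 * r)) ^ (1 / 2 - 1 / 4 : ℝ)) = r * Real.log q / 2 := by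
  obtain ⟨q₀, hq₀, h⟩ := log_cqn hc r hr (1 / 10) (by norm_num)
  refine ⟨q₀, fun q hq => ?_⟩
  obtain ⟨h1, h2⟩ := h q hq
  have hq2 : 2 ≤ q := hq₀.trans hq
  have hq1 : (1 : ℝ) < q := by exact_mod_cast hq2
  have hl : 0 < Real.log q := Real.log_pos hq1
  have hr0 : (0 : ℝ) < r := by exact_mod_cast hr
  have hrl : 0 < r * Real.log q := mul_pos hr0 hl
  refine ⟨hl, by linarith, by linarith, ?_⟩
  rw [Real.log_rpow (by positivity), Real.log_pow]
  push_cast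
  ring

theorem pf_UBw (hB : T_Bw) (hCQ : T_CQz) (hIE : T_IEq) : T_UBw := by
  refine ⟨fun R => 5 * (1 + 2 * R) ^ 2 * (1 + Real.exp (10 * R)) + 1, ?_⟩
  intro F _ _ _ _
  obtain ⟨A₀, hB⟩ := hB F
  refine ⟨A₀, fun A R T hA hR hT => ?_⟩
  obtain ⟨hr, hfr, cK, hcK, hcA⟩ := hCQ F
  obtain ⟨r, hrdef⟩ : ∃ r : ℕ, r = nrComplexPlaces F := ⟨_, rfl⟩
  rw [← hrdef] at hr hfr hcA
  have hr0 : (0 : ℝ) < r := by exact_mod_cast hr
  have hr1 : (1 : ℝ) ≤ r := by exact_mod_cast hr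
  have hR0 : 0 < R := by linarith
  obtain ⟨B, hB0, hB⟩ := hB A (1 / 4) (R / (3 * r)) (5 * R) hA (by norm_num) (by norm_num)
    (by positivity) (by positivity)
  have hT1 : 0 < 1 + T := by linarith
  obtain ⟨x₁, hB⟩ := hB (1 / (1 + T) ^ B) (by positivity)
  obtain ⟨q₁, hpar⟩ := UBw_par r hr cK hcK
  refine ⟨max (max (Real.exp 1) x₁) ((q₁ : ℝ) ^ 2), fun x q hx hSp t ht z hz => ?_⟩
  have hxe : Real.exp 1 ≤ x := (le_max_left _ _).trans ((le_max_left _ _).trans hx)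
  have hxb : x₁ ≤ x := (le_max_right _ _).trans ((le_max_left _ _).trans hx)
  obtain ⟨hqx, hq2⟩ := Pool.Agent.H19.SM.Bz_large F A x q hxe hSp
  have hqq : q₁ ≤ q := by
    have h1 : (q₁ : ℝ) ≤ Real.sqrt x := Real.le_sqrt_of_sq_le ((le_max_right _ _).trans hx)
    exact_mod_cast h1.trans hqx
  obtain ⟨hl0, hL1, hL2, hMl⟩ := hpar q hqq
  obtain ⟨hcA1, hcA2⟩ := hcA q (by omega)
  obtain ⟨L, hL⟩ : ∃ L : ℝ, L = Lg F q := ⟨_, rfl⟩
  have hLdef : L = 2 * Real.log (cK * (q : ℝ) ^ r) := by rw [hL, Lg, hcA1]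
  rw [← hLdef] at hL1 hL2
  have hrl : 0 < r * Real.log q := mul_pos hr0 hl0
  have hL0 : 0 < L := by linarith
  obtain ⟨M, hM⟩ : ∃ M : ℝ, M = Mo F (1 / 4) q := ⟨_, rfl⟩
  obtain ⟨l, hl⟩ : ∃ l : ℝ, l = Real.log M := ⟨_, rfl⟩
  have hll : l = r * Real.log q / 2 := by
    rw [hl, hM, Mo, hcA2, hfr, hMl]
  have hlpos : 0 < l := by rw [hll]; positivity
  obtain ⟨g, hg⟩ : ∃ g : ℝ, g = gr F R q := ⟨_, rfl⟩
  have hg' : g = R / L := by rw [hg, gr, hL]
  have hg0 : 0 < g := by rw [hg']; positivity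
  have hgL : g * L = R := by rw [hg']; field_simp
  have hgl1 : R / 5 ≤ g * l := by
    rw [hg', hll, div_mul_eq_mul_div, le_div_iff₀ hL0]
    nlinarith
  have hgl2 : g * l ≤ R / 3 := by
    rw [hg', hll, div_mul_eq_mul_div, div_le_iff₀ hL0]
    nlinarith
  have h5g : 5 * g ≤ 5 * R / Real.log q := by
    rw [hg', mul_div_assoc]
    have h1 : R / L ≤ R / Real.log q := by
      refine div_le_div_of_nonneg_left hR0.le hl0 ?_
      nlinarith
    linarith
  have hcg : R / (3 * r) / Real.log q ≤ g := by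
    rw [hg', div_div]
    refine div_le_div_of_nonneg_left hR0.le hL0 ?_
    nlinarith
  have hη : 1 / (1 + T) ^ B * (1 + |t|) ^ B ≤ 1 := by
    rw [one_div, inv_mul_le_iff₀ (by positivity), mul_one]
    exact Real.rpow_le_rpow (by positivity) (by linarith) hB0
  -- the conductor
  have hntop : qi F q ≠ ⊤ := by
    intro h
    have h1 : nm (qi F q) = 1 := by
      rw [h]
      unfold nm
      rw [Ideal.absNorm_top, Nat.cast_one]
    rw [hcA2, hfr] at h1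
    have h2 : (1 : ℝ) < (q : ℝ) ^ (2 * r) :=
      one_lt_pow₀ (by exact_mod_cast hq2) (by omega)
    linarith
  have hdiff : ∀ χ ∈ Pr F (qi F q), Differentiable ℂ (Zx χ) := fun χ hχ => by
    have h1 : χ.f = qi F q := hχ
    exact (Pool.Agent.H91.CRZ.Zx_ent F χ (by rw [h1]; exact hntop)).1
  obtain ⟨hfin, -⟩ := hIE F q hSp.sq
  obtain ⟨N, hN⟩ : ∃ N : ℝ, N = (nc (qi F q) (qi F q) : ℝ) := ⟨_, rfl⟩
  have hN0 : 0 ≤ N := by rw [hN]; exact Nat.cast_nonneg _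
  obtain ⟨b, hb⟩ : ∃ b : ℂ, b = (starRingEnd ℂ) ((g : ℂ) + z) := ⟨_, rfl⟩
  have hbc : (starRingEnd ℂ) b = (g : ℂ) + z := by rw [hb, Complex.conj_conj]
  obtain ⟨f, hf⟩ : ∃ f : ℂ → ℂ, f = fun a => ∑ χ ∈ hfin.toFinset, Zx χ (1 / 2 + a + t * I) *
      (starRingEnd ℂ) (Zx χ (1 / 2 + ((g : ℂ) + z) + t * I)) *
        ((‖Pw R t q χ‖ ^ 2 : ℝ) : ℂ) := ⟨_, rfl⟩
  have hfd : Differentiable ℂ f := by
    rw [hf]
    refine Differentiable.fun_sum fun χ hχ => ?_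
    have h1 := hdiff χ (by simpa using hχ)
    refine Differentiable.mul_const (Differentiable.mul_const (h1.comp ?_) _) _
    fun_prop
  have hgn : ‖(g : ℂ)‖ = g := by rw [Complex.norm_real, Real.norm_eq_abs, abs_of_pos hg0]
  rw [← hg] at hz
  have ha3 : ‖(g : ℂ) + z‖ ≤ 3 * g := by
    refine (norm_add_le _ _).trans ?_
    rw [hgn, hz]; linarith
  have hb3 : ‖b‖ ≤ 3 * g := by rw [hb, RCLike.norm_conj]; exact ha3
  -- the bound away from the diagonal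
  have hmain : ∀ a : ℂ, ‖a‖ ≤ 5 * g → g ≤ ‖a + b‖ →
      ‖f a‖ ≤ (5 * (1 + 2 * R) ^ 2 * (1 + Real.exp (10 * R)) + 1) * N := by
    intro a ha hab
    have h1 := hB x q hxb hSp a b g t (ha.trans h5g) ((hb3.trans (by linarith)).trans h5g)
      (hcg.trans hab) hg0.le (by linarith)
    rw [finsum_mem_eq_finite_toFinset_sum _ hfin, hbc, ← hM, ← hL, ← hl] at h1
    have h2 : (∑ χ ∈ hfin.toFinset, Zx χ (1 / 2 + a + t * I) *
      (starRingEnd ℂ) (Zx χ (1 / 2 + ((g : ℂ) + z) + t * I)) *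
        ((‖pol M (cg F M g t) χ.ψ‖ ^ 2 : ℝ) : ℂ)) = f a := by
      rw [hf, hM, hg]
      rfl
    rw [h2] at h1
    have h3 := Bmw_le a b g R L l hg0 hlpos hL0.le hgL ha (hb3.trans (by linarith)) hab hgl1
      hgl2 hR
    have hNc : ((nc (qi F q) (qi F q) : ℕ) : ℂ) = (N : ℂ) := by
      rw [hN]
      push_cast
      rfl
    rw [hNc, ← hN] at h1
    have h4 : ‖(N : ℂ) * Bmw a b g L l‖ ≤
        N * (5 * (1 + 2 * R) ^ 2 * (1 + Real.exp (10 * R))) := by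
      rw [norm_mul, Complex.norm_real, Real.norm_eq_abs, abs_of_nonneg hN0]
      exact mul_le_mul_of_nonneg_left h3 hN0
    have h5 : 1 / (1 + T) ^ B * (1 + |t|) ^ B * N ≤ 1 * N :=
      mul_le_mul_of_nonneg_right hη hN0
    have h6 := norm_le_norm_add_norm_sub' (f a) ((N : ℂ) * Bmw a b g L l)
    calc ‖f a‖ ≤ ‖(N : ℂ) * Bmw a b g L l‖ + ‖f a - (N : ℂ) * Bmw a b g L l‖ := h6
      _ ≤ N * (5 * (1 + 2 * R) ^ 2 * (1 + Real.exp (10 * R))) + 1 * N :=
          add_le_add h4 (h1.trans h5)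
      _ = _ := by ring
  -- the maximum principle
  have hfa : ‖f ((g : ℂ) + z)‖ ≤ (5 * (1 + 2 * R) ^ 2 * (1 + Real.exp (10 * R)) + 1) * N := by
    rcases le_or_gt g ‖((g : ℂ) + z) + b‖ with h | h
    · exact hmain _ (ha3.trans (by linarith)) h
    · have h1 : ∀ w ∈ frontier (Metric.ball ((g : ℂ) + z) (2 * g)),
          ‖f w‖ ≤ (5 * (1 + 2 * R) ^ 2 * (1 + Real.exp (10 * R)) + 1) * N := by
        intro w hw
        rw [frontier_ball _ (by linarith : 2 * g ≠ 0), mem_sphere_iff_norm] at hw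
        refine hmain w ?_ ?_
        · have h2 : w = ((g : ℂ) + z) + (w - ((g : ℂ) + z)) := by ring
          rw [h2]
          refine (norm_add_le _ _).trans ?_
          rw [hw]; linarith
        · have h2 : w + b = (w - ((g : ℂ) + z)) + (((g : ℂ) + z) + b) := by ring
          rw [h2]
          have h3 := norm_sub_le_norm_add (w - ((g : ℂ) + z)) (((g : ℂ) + z) + b)
          rw [hw] at h3
          linarith
      refine Complex.norm_le_of_forall_mem_frontier_norm_le Metric.isBounded_ball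
        hfd.diffContOnCl h1 ?_
      exact subset_closure (Metric.mem_ball_self (by linarith))
  have hfin' : ((∑ᶠ χ ∈ Pr F (qi F q),
      ‖Zx χ (1 / 2 + gr F R q + t * I + z) * Pw R t q χ‖ ^ 2 : ℝ) : ℂ) = f ((g : ℂ) + z) := by
    rw [finsum_mem_eq_finite_toFinset_sum _ hfin, hf, Complex.ofReal_sum]
    refine Finset.sum_congr rfl fun χ _ => ?_
    rw [← hg, show (1 / 2 + (g : ℂ) + t * I + z) = 1 / 2 + ((g : ℂ) + z) + t * I by ring,
      Complex.mul_conj, Complex.normSq_eq_norm_sq, norm_mul, mul_pow]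
    push_cast
    rfl
  have h9 : ∑ᶠ χ ∈ Pr F (qi F q),
      ‖Zx χ (1 / 2 + gr F R q + t * I + z) * Pw R t q χ‖ ^ 2 ≤ ‖f ((g : ℂ) + z)‖ := by
    rw [← hfin', Complex.norm_real]
    exact le_abs_self _
  rw [← hN]
  exact h9.trans hfa

end Pool.Agent.H25.SM
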